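import Pool.Agent.Lib.MP_1e8db4_co.Chart

/-!
The path metric near interior points of edges and faces.
-/

set_option autoImplicit false

namespace Pool.Agent.Lib.MP_1e8db4_co

open Set Metric
open scoped ENNReal NNReal

variable {ℓ a b : ℝ} {i j k : Fin 3}

theorem coord_le (p q : E3) (m : Fin 3) : |p m - q m| ≤ dist p q := by
  rw [← Real.dist_eq]
  exact PiLp.dist_apply_le p q m

theorem coord_le2 (p q : E2) (m : Fin 2) : |p m - q m| ≤ dist p q := by
  rw [← Real.dist_eq]
  exact PiLp.dist_apply_le p q m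

/-- near an interior point of an edge, the surface consists of the two faces -/
theorem near_edge (hij : i ≠ j) (hik : i ≠ k) (hjk : j ≠ k) (ha : a = 0 ∨ a = ℓ)
    (hb : b = 0 ∨ b = ℓ) {q0 q : E3} (hi : q0 i = a) (hj : q0 j = b) {δ : ℝ}
    (h1 : δ ≤ q0 k) (h2 : δ ≤ ℓ - q0 k) (h3 : δ ≤ ℓ) (hq : q ∈ cubeSurface ℓ)
    (hd : dist q q0 < δ) : q i = a ∨ q j = b := by
  have ci := abs_lt.1 ((coord_le q q0 i).trans_lt hd)
  have cj := abs_lt.1 ((coord_le q q0 j).trans_lt hd)
  have ck := abs_lt.1 ((coord_le q q0 k).trans_lt hd)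
  obtain ⟨m, hm⟩ := hq.2
  rw [hi] at ci
  rw [hj] at cj
  rcases cases3 hij hik hjk m with rfl | rfl | rfl
  · left
    rcases hm with hm | hm <;> rcases ha with rfl | rfl
    · exact hm
    · rw [hm] at ci; linarith
    · rw [hm] at ci; linarith
    · exact hm
  · right
    rcases hm with hm | hm <;> rcases hb with rfl | rfl
    · exact hm
    · rw [hm] at cj; linarith
    · rw [hm] at cj; linarith
    · exact hm
  · exfalso
    rcases hm with hm | hm
    · rw [hm] at ck; linarith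
    · rw [hm] at ck; linarith

theorem unf_coord0 (q : E3) : unf i j k a b q 0 = |q i - a| - |q j - b| := rfl

theorem edge_chart (hij : i ≠ j) (hik : i ≠ k) (hjk : j ≠ k) (hℓ : 0 < ℓ) (ha : a = 0 ∨ a = ℓ)
    (hb : b = 0 ∨ b = ℓ) {q0 : E3} (hq0 : q0 ∈ cubeSurface ℓ) (hi : q0 i = a) (hj : q0 j = b)
    (hk0 : 0 < q0 k) (hk1 : q0 k < ℓ) :
    ∃ δ > 0, ∀ q ∈ cubeSurface ℓ, ∀ q' ∈ cubeSurface ℓ, dist q q0 < δ → dist q' q0 < δ →
      (q i = a ∨ q j = b) ∧
      pathDist (cubeSurface ℓ) q q' = edist (unf i j k a b q) (unf i j k a b q') := by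
  set ε : ℝ := min (min (q0 k) (ℓ - q0 k)) ℓ with hε
  have hε0 : 0 < ε := lt_min (lt_min hk0 (by linarith)) hℓ
  have e1 : ε ≤ q0 k := (min_le_left _ _).trans (min_le_left _ _)
  have e2 : ε ≤ ℓ - q0 k := (min_le_left _ _).trans (min_le_right _ _)
  have e3 : ε ≤ ℓ := min_le_right _ _
  refine ⟨ε / 4, by positivity, ?_⟩
  intro q hq q' hq' hd hd'
  have hs : q i = a ∨ q j = b :=
    near_edge hij hik hjk ha hb hi hj e1 e2 e3 hq (by linarith)
  have hs' : q' i = a ∨ q' j = b :=
    near_edge hij hik hjk ha hb hi hj e1 e2 e3 hq' (by linarith)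
  refine ⟨hs, le_antisymm (pathDist_le_unf hij hik hjk hℓ.le ha hb hq hs hq' hs') ?_⟩
  -- distance between points of the same face
  have same : ∀ p p' : E3, p ∈ cubeSurface ℓ → p' ∈ cubeSurface ℓ →
      ((p i = a ∧ p' i = a) ∨ (p j = b ∧ p' j = b)) →
      dist (unf i j k a b p) (unf i j k a b p') = dist p p' := by
    rintro p p' hp hp' (h | h)
    · exact unf_dist_face2 hij hik hjk hb hp hp' h.1 h.2
    · exact unf_dist_face1 hij hik hjk ha hp hp' h.1 h.2
  have hm : dist (unf i j k a b q) (unf i j k a b q') ≤ 2 * (ε / 4) := by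
    have h1 : dist (unf i j k a b q) (unf i j k a b q0) = dist q q0 := by
      apply same q q0 hq hq0
      rcases hs with h | h
      · exact Or.inl ⟨h, hi⟩
      · exact Or.inr ⟨h, hj⟩
    have h2 : dist (unf i j k a b q') (unf i j k a b q0) = dist q' q0 := by
      apply same q' q0 hq' hq0
      rcases hs' with h | h
      · exact Or.inl ⟨h, hi⟩
      · exact Or.inr ⟨h, hj⟩
    have h3 := dist_triangle_right (unf i j k a b q) (unf i j k a b q') (unf i j k a b q0)
    rw [h1, h2] at h3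
    linarith
  apply le_iInf₂
  rintro γ ⟨hc, hX, h0, h1⟩
  by_cases hout : ∃ t ∈ Icc (0 : ℝ) 1, ε ≤ dist (γ t) q0
  · obtain ⟨t, ht, hfar⟩ := hout
    have h2 : dist (unf i j k a b q) (unf i j k a b q') ≤ dist (γ 0) (γ t) := by
      have h3 := dist_triangle_left (γ t) q0 (γ 0)
      rw [h0] at h3 ⊢
      linarith
    calc edist (unf i j k a b q) (unf i j k a b q') ≤ edist (γ 0) (γ t) := by
          rw [edist_dist, edist_dist]
          exact ENNReal.ofReal_le_ofReal h2
      _ ≤ eVariationOn γ (Icc 0 1) :=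
          eVariationOn.edist_le γ (left_mem_Icc.2 zero_le_one) ht
  push Not at hout
  have hside : ∀ t ∈ Icc (0 : ℝ) 1, γ t i = a ∨ γ t j = b := fun t ht =>
    near_edge hij hik hjk ha hb hi hj e1 e2 e3 (hX ht) (hout t ht)
  by_cases hss : (q i = a ∧ q' i = a) ∨ (q j = b ∧ q' j = b)
  · rw [edist_dist, same q q' hq hq' hss, ← edist_dist, ← h0, ← h1]
    exact eVariationOn.edist_le γ (left_mem_Icc.2 zero_le_one) (right_mem_Icc.2 zero_le_one)
  -- crossing
  have hcont : ContinuousOn (fun t => |γ t i - a| - |γ t j - b|) (Icc 0 1) := by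
    have hci : ContinuousOn (fun t => γ t i) (Icc 0 1) :=
      (EuclideanSpace.proj i).continuous.comp_continuousOn hc
    have hcj : ContinuousOn (fun t => γ t j) (Icc 0 1) :=
      (EuclideanSpace.proj j).continuous.comp_continuousOn hc
    exact ((hci.sub continuousOn_const).abs).sub ((hcj.sub continuousOn_const).abs)
  obtain ⟨t, ht, hzero⟩ : ∃ t ∈ Icc (0 : ℝ) 1, |γ t i - a| - |γ t j - b| = 0 := by
    have hmem : (0 : ℝ) ∈ uIcc (|γ 0 i - a| - |γ 0 j - b|) (|γ 1 i - a| - |γ 1 j - b|) := by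
      rw [h0, h1]
      rcases hs with h | h <;> rcases hs' with h' | h'
      · exact absurd (Or.inl ⟨h, h'⟩) hss
      · rw [h, h', sub_self, sub_self, abs_zero, zero_sub, sub_zero]
        exact mem_uIcc.2 (Or.inl ⟨by simp, abs_nonneg _⟩)
      · rw [h, h', sub_self, sub_self, abs_zero, zero_sub, sub_zero]
        exact mem_uIcc.2 (Or.inr ⟨by simp, abs_nonneg _⟩)
      · exact absurd (Or.inr ⟨h, h'⟩) hss
    have hu : uIcc (0 : ℝ) 1 = Icc 0 1 := uIcc_of_le zero_le_one
    have := intermediate_value_uIcc (a := (0 : ℝ)) (b := 1)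
      (f := fun t => |γ t i - a| - |γ t j - b|) (by rw [hu]; exact hcont) hmem
    obtain ⟨t, ht, h⟩ := this
    rw [hu] at ht
    exact ⟨t, ht, h⟩
  have hboth : γ t i = a ∧ γ t j = b := by
    have n1 := abs_nonneg (γ t i - a)
    have n2 := abs_nonneg (γ t j - b)
    rcases hside t ht with h | h
    · rw [h, sub_self, abs_zero, zero_sub] at hzero
      have : |γ t j - b| = 0 := by linarith
      exact ⟨h, sub_eq_zero.1 (abs_eq_zero.1 this)⟩
    · rw [h, sub_self, abs_zero, sub_zero] at hzero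
      exact ⟨sub_eq_zero.1 (abs_eq_zero.1 hzero), h⟩
  have d1 : dist (unf i j k a b q) (unf i j k a b (γ t)) = dist q (γ t) := by
    apply same q (γ t) hq (hX ht)
    rcases hs with h | h
    · exact Or.inl ⟨h, hboth.1⟩
    · exact Or.inr ⟨h, hboth.2⟩
  have d2 : dist (unf i j k a b (γ t)) (unf i j k a b q') = dist (γ t) q' := by
    apply same (γ t) q' (hX ht) hq'
    rcases hs' with h | h
    · exact Or.inl ⟨hboth.1, h⟩
    · exact Or.inr ⟨hboth.2, h⟩
  calc edist (unf i j k a b q) (unf i j k a b q')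
      ≤ edist (unf i j k a b q) (unf i j k a b (γ t)) +
        edist (unf i j k a b (γ t)) (unf i j k a b q') := edist_triangle _ _ _
    _ = edist (γ 0) (γ t) + edist (γ t) (γ 1) := by
        rw [edist_dist, edist_dist, d1, d2, ← edist_dist, ← edist_dist, h0, h1]
    _ ≤ eVariationOn γ (Icc 0 1) := three_points ht

theorem face_chart (hij : i ≠ j) (hik : i ≠ k) (hjk : j ≠ k) (hb : b = 0 ∨ b = ℓ)
    {q0 : E3} (hj : q0 j = b)
    (hi0 : 0 < q0 i) (hi1 : q0 i < ℓ) (hk0 : 0 < q0 k) (hk1 : q0 k < ℓ) :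
    ∃ δ > 0, ∀ q ∈ cubeSurface ℓ, ∀ q' ∈ cubeSurface ℓ, dist q q0 < δ → dist q' q0 < δ →
      (q j = b ∧ 0 < q i ∧ q i < ℓ ∧ 0 < q k ∧ q k < ℓ) ∧
      pathDist (cubeSurface ℓ) q q' = edist q q' := by
  have hℓ : 0 < ℓ := by linarith
  set ε : ℝ := min (min (min (q0 i) (ℓ - q0 i)) (min (q0 k) (ℓ - q0 k))) ℓ with hε
  have hε0 : 0 < ε :=
    lt_min (lt_min (lt_min hi0 (by linarith)) (lt_min hk0 (by linarith))) hℓ
  have e1 : ε ≤ q0 i := (min_le_left _ _).trans ((min_le_left _ _).trans (min_le_left _ _))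
  have e2 : ε ≤ ℓ - q0 i := (min_le_left _ _).trans ((min_le_left _ _).trans (min_le_right _ _))
  have e3 : ε ≤ q0 k := (min_le_left _ _).trans ((min_le_right _ _).trans (min_le_left _ _))
  have e4 : ε ≤ ℓ - q0 k := (min_le_left _ _).trans ((min_le_right _ _).trans (min_le_right _ _))
  have e5 : ε ≤ ℓ := min_le_right _ _
  have near : ∀ q ∈ cubeSurface ℓ, dist q q0 < ε →
      (q j = b ∧ 0 < q i ∧ q i < ℓ ∧ 0 < q k ∧ q k < ℓ) := by
    intro q hq hd
    have ci := abs_lt.1 ((coord_le q q0 i).trans_lt hd)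
    have cj := abs_lt.1 ((coord_le q q0 j).trans_lt hd)
    have ck := abs_lt.1 ((coord_le q q0 k).trans_lt hd)
    have i0 : 0 < q i := by linarith
    have i1 : q i < ℓ := by linarith
    have k0 : 0 < q k := by linarith
    have k1 : q k < ℓ := by linarith
    refine ⟨?_, i0, i1, k0, k1⟩
    obtain ⟨m, hm⟩ := hq.2
    rcases cases3 hij hik hjk m with rfl | rfl | rfl
    · rcases hm with hm | hm <;> linarith
    · rw [hj] at cj
      rcases hm with hm | hm <;> rcases hb with rfl | rfl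
      · exact hm
      · rw [hm] at cj; linarith
      · rw [hm] at cj; linarith
      · exact hm
    · rcases hm with hm | hm <;> linarith
  refine ⟨ε, hε0, ?_⟩
  intro q hq q' hq' hd hd'
  have n1 := near q hq hd
  have n2 := near q' hq' hd'
  refine ⟨n1, pathDist_segment ?_⟩
  intro t ht
  have t0 := ht.1
  have t1 : 0 ≤ 1 - t := sub_nonneg.2 ht.2
  have hco : ∀ m, (AffineMap.lineMap q q' t : E3) m = (1 - t) * q m + t * q' m := by
    intro m
    simp [AffineMap.lineMap_apply]
    ring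
  constructor
  · intro m
    rw [hco]
    have hqm := hq.1 m
    have hqm' := hq'.1 m
    constructor
    · have := mul_nonneg t1 hqm.1
      have := mul_nonneg t0 hqm'.1
      linarith
    · nlinarith [mul_nonneg t1 (sub_nonneg.2 hqm.2), mul_nonneg t0 (sub_nonneg.2 hqm'.2)]
  · refine ⟨j, ?_⟩
    rw [hco, n1.1, n2.1]
    have : (1 - t) * b + t * b = b := by ring
    rw [this]
    exact hb

end Pool.Agent.Lib.MP_1e8db4_co
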