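import Pool.Agent.Lib.MP_1e8db4_co.Defs
import Pool.Agent.Lib.MP_1e8db4_co.Near
import Mathlib.MeasureTheory.Measure.Haar.InnerProductSpace
import Mathlib.MeasureTheory.Measure.Haar.OfBasis
import Mathlib.MeasureTheory.Constructions.Pi
import Mathlib.MeasureTheory.Measure.Lebesgue.Basic
import Mathlib.MeasureTheory.Measure.Lebesgue.EqHaar
import Mathlib.Algebra.Order.Floor.Ring

/-!
Elementary facts about unions of unit squares.
-/

set_option autoImplicit false

namespace Pool.Agent.Lib.MP_1e8db4_co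

open Set Metric MeasureTheory
open scoped ENNReal NNReal

/-- an open rectangle -/
def rect (s0 t0 s1 t1 : ℝ) : Set E2 := {x | s0 < x 0 ∧ x 0 < t0 ∧ s1 < x 1 ∧ x 1 < t1}

theorem continuous_coord (m : Fin 2) : Continuous (fun x : E2 => x m) :=
  (EuclideanSpace.proj (𝕜 := ℝ) m).continuous

theorem isOpen_rect (s0 t0 s1 t1 : ℝ) : IsOpen (rect s0 t0 s1 t1) := by
  have h0 := continuous_coord 0
  have h1 := continuous_coord 1
  exact (isOpen_lt continuous_const h0).inter ((isOpen_lt h0 continuous_const).inter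
    ((isOpen_lt continuous_const h1).inter (isOpen_lt h1 continuous_const)))

theorem volume_rect (s0 t0 s1 t1 : ℝ) :
    volume (rect s0 t0 s1 t1) = ENNReal.ofReal (t0 - s0) * ENNReal.ofReal (t1 - s1) := by
  have h := (PiLp.volume_preserving_ofLp (Fin 2)).measure_preimage
    (s := Set.pi univ fun i => Ioo ((![s0, s1] : Fin 2 → ℝ) i) ((![t0, t1] : Fin 2 → ℝ) i))
    (MeasurableSet.univ_pi fun i => measurableSet_Ioo).nullMeasurableSet
  rw [Real.volume_pi_Ioo, Fin.prod_univ_two] at h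
  have e : rect s0 t0 s1 t1 = (@WithLp.ofLp 2 (Fin 2 → ℝ)) ⁻¹'
      (Set.pi univ fun i => Ioo ((![s0, s1] : Fin 2 → ℝ) i) ((![t0, t1] : Fin 2 → ℝ) i)) := by
    ext x
    simp only [rect, mem_setOf_eq, mem_preimage, Set.mem_pi, mem_univ, forall_true_left,
      Fin.forall_fin_two, mem_Ioo, Matrix.cons_val_zero, Matrix.cons_val_one]
    tauto
  rw [e, h]
  simp

theorem volume_hyper (m : Fin 2) (t : ℝ) : volume {x : E2 | x m = t} = 0 := by
  have hm : MeasurableSet {g : Fin 2 → ℝ | g m = t} :=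
    (isClosed_eq (continuous_apply m) continuous_const).measurableSet
  have h := (PiLp.volume_preserving_ofLp (Fin 2)).measure_preimage hm.nullMeasurableSet
  have h2 : volume {g : Fin 2 → ℝ | g m = t} = 0 := by
    rw [MeasureTheory.volume_pi]
    exact Measure.pi_hyperplane (fun _ : Fin 2 => (volume : Measure ℝ)) m t
  rw [h2] at h
  exact h

/-- the union of the vertical and horizontal lines through a set of numbers -/
def grid (A : Set ℝ) : Set E2 := {x | x 0 ∈ A ∨ x 1 ∈ A}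

theorem volume_grid {A : Set ℝ} (hA : A.Countable) : volume (grid A) = 0 := by
  have e : grid A = ⋃ t ∈ A, ({x : E2 | x 0 = t} ∪ {x : E2 | x 1 = t}) := by
    ext x
    simp only [grid, mem_setOf_eq, mem_iUnion, mem_union, exists_prop]
    constructor
    · rintro (h | h)
      · exact ⟨_, h, Or.inl rfl⟩
      · exact ⟨_, h, Or.inr rfl⟩
    · rintro ⟨t, ht, h | h⟩
      · left; rw [h]; exact ht
      · right; rw [h]; exact ht
  rw [e, measure_biUnion_null_iff hA]
  intro t _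
  exact measure_union_null (volume_hyper 0 t) (volume_hyper 1 t)

/-- the integers, as a set of real numbers -/
def intSet : Set ℝ := Set.range (fun n : ℤ => (n : ℝ))

theorem intSet_countable : intSet.Countable := countable_range _

theorem floor_lt_of_not {x : ℝ} (h : x ∉ intSet) : (⌊x⌋ : ℝ) < x :=
  lt_of_le_of_ne (Int.floor_le x) (fun e => h ⟨⌊x⌋, e⟩)

/-- the open cell -/
def ocell (c : ℤ × ℤ) : Set E2 := rect c.1 (c.1 + 1) c.2 (c.2 + 1)

theorem ocell_sub_cell (c : ℤ × ℤ) : ocell c ⊆ cell c :=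
  fun _ hx => ⟨hx.1.le, hx.2.1.le, hx.2.2.1.le, hx.2.2.2.le⟩

theorem cell_sub_region {S : Finset (ℤ × ℤ)} {c : ℤ × ℤ} (hc : c ∈ S) : cell c ⊆ region S :=
  fun _ hx => mem_biUnion hc hx

theorem ocell_sub_interior {S : Finset (ℤ × ℤ)} {c : ℤ × ℤ} (hc : c ∈ S) :
    ocell c ⊆ interior (region S) :=
  interior_maximal ((ocell_sub_cell c).trans (cell_sub_region hc)) (isOpen_rect _ _ _ _)

theorem isClosed_cell (c : ℤ × ℤ) : IsClosed (cell c) := by
  have h0 := continuous_coord 0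
  have h1 := continuous_coord 1
  exact (isClosed_le continuous_const h0).inter ((isClosed_le h0 continuous_const).inter
    ((isClosed_le continuous_const h1).inter (isClosed_le h1 continuous_const)))

theorem isClosed_region (S : Finset (ℤ × ℤ)) : IsClosed (region S) :=
  S.finite_toSet.isClosed_biUnion fun c _ => isClosed_cell c

theorem region_bounded (S : Finset (ℤ × ℤ)) : ∃ M : ℝ, ∀ x ∈ region S, ∀ m, |x m| ≤ M := by
  obtain ⟨M, hM⟩ : ∃ M : ℝ, ∀ c ∈ S, |(c.1 : ℝ)| + |(c.2 : ℝ)| + 1 ≤ M := by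
    obtain ⟨M, hM⟩ := (S.finite_toSet.image
      (fun c : ℤ × ℤ => |(c.1 : ℝ)| + |(c.2 : ℝ)| + 1)).bddAbove
    exact ⟨M, fun c hc => hM ⟨c, hc, rfl⟩⟩
  refine ⟨M, fun x hx m => ?_⟩
  obtain ⟨c, hc, hxc⟩ := mem_iUnion₂.1 hx
  have h := hM c hc
  have a1 := abs_nonneg (c.1 : ℝ)
  have a2 := abs_nonneg (c.2 : ℝ)
  have b1 := neg_abs_le (c.1 : ℝ)
  have b2 := neg_abs_le (c.2 : ℝ)
  have d1 := le_abs_self (c.1 : ℝ)
  have d2 := le_abs_self (c.2 : ℝ)
  obtain ⟨e1, e2, e3, e4⟩ := hxc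
  fin_cases m
  · show |x 0| ≤ M
    rw [abs_le]
    constructor <;> linarith
  · show |x 1| ≤ M
    rw [abs_le]
    constructor <;> linarith

/-- a point of the region with non-integral coordinates lies in an open cell -/
theorem mem_ocell {S : Finset (ℤ × ℤ)} {x : E2} (hx : x ∈ region S) (h0 : x 0 ∉ intSet)
    (h1 : x 1 ∉ intSet) : ∃ c ∈ S, x ∈ ocell c := by
  obtain ⟨c, hc, e1, e2, e3, e4⟩ := mem_iUnion₂.1 hx
  refine ⟨c, hc, ?_, ?_, ?_, ?_⟩
  · exact lt_of_le_of_ne e1 (fun e => h0 ⟨c.1, e⟩)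
  · exact lt_of_le_of_ne e2 (fun e => h0 ⟨c.1 + 1, by push_cast; exact e.symm⟩)
  · exact lt_of_le_of_ne e3 (fun e => h1 ⟨c.2, e⟩)
  · exact lt_of_le_of_ne e4 (fun e => h1 ⟨c.2 + 1, by push_cast; exact e.symm⟩)

theorem region_sdiff_sub (S : Finset (ℤ × ℤ)) :
    region S \ interior (region S) ⊆ grid intSet := by
  rintro x ⟨hx, hxi⟩
  by_contra hcon
  simp only [grid, mem_setOf_eq, not_or] at hcon
  obtain ⟨c, hc, h⟩ := mem_ocell hx hcon.1 hcon.2
  exact hxi (ocell_sub_interior hc h)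

theorem cell_sub_closure (c : ℤ × ℤ) : cell c ⊆ closure (ocell c) := by
  intro x hx
  set m : E2 := WithLp.toLp 2 ![(c.1 : ℝ) + 1 / 2, (c.2 : ℝ) + 1 / 2] with hm
  have m0 : m 0 = (c.1 : ℝ) + 1 / 2 := rfl
  have m1 : m 1 = (c.2 : ℝ) + 1 / 2 := rfl
  rw [Metric.mem_closure_iff]
  intro ε hε
  obtain ⟨t, ht0, ht1, htε⟩ : ∃ t : ℝ, 0 < t ∧ t ≤ 1 ∧ t * dist x m < ε := by
    refine ⟨min 1 (ε / (dist x m + 1)), by positivity, min_le_left _ _, ?_⟩
    have h1 : min 1 (ε / (dist x m + 1)) ≤ ε / (dist x m + 1) := min_le_right _ _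
    have h2 : 0 ≤ dist x m := dist_nonneg
    calc min 1 (ε / (dist x m + 1)) * dist x m ≤ ε / (dist x m + 1) * dist x m := by gcongr
      _ < ε := by
        rw [div_mul_eq_mul_div, div_lt_iff₀ (by positivity)]
        nlinarith
  refine ⟨AffineMap.lineMap x m t, ?_, ?_⟩
  · have hc : ∀ i, (AffineMap.lineMap x m t : E2) i = x i + t * (m i - x i) := by
      intro i
      simp [AffineMap.lineMap_apply]
      ring
    obtain ⟨e1, e2, e3, e4⟩ := hx
    refine ⟨?_, ?_, ?_, ?_⟩
    · rw [hc, m0]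
      nlinarith [mul_nonneg (sub_nonneg.2 ht1) (sub_nonneg.2 e1)]
    · rw [hc, m0]
      nlinarith [mul_nonneg (sub_nonneg.2 ht1) (sub_nonneg.2 e2)]
    · rw [hc, m1]
      nlinarith [mul_nonneg (sub_nonneg.2 ht1) (sub_nonneg.2 e3)]
    · rw [hc, m1]
      nlinarith [mul_nonneg (sub_nonneg.2 ht1) (sub_nonneg.2 e4)]
  · rw [dist_left_lineMap, Real.norm_eq_abs, abs_of_pos ht0]
    exact htε

theorem region_sub_closure (S : Finset (ℤ × ℤ)) :
    region S ⊆ closure (interior (region S)) := by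
  intro x hx
  obtain ⟨c, hc, h⟩ := mem_iUnion₂.1 hx
  exact closure_mono (ocell_sub_interior hc) (cell_sub_closure c h)

theorem ocell_disjoint {c d : ℤ × ℤ} (h : c ≠ d) : Disjoint (ocell c) (ocell d) := by
  rw [Set.disjoint_left]
  rintro x ⟨a1, a2, a3, a4⟩ ⟨b1, b2, b3, b4⟩
  apply h
  have h1 : c.1 < d.1 + 1 := by
    have : (c.1 : ℝ) < d.1 + 1 := by linarith
    exact_mod_cast this
  have h2 : d.1 < c.1 + 1 := by
    have : (d.1 : ℝ) < c.1 + 1 := by linarith
    exact_mod_cast this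
  have h3 : c.2 < d.2 + 1 := by
    have : (c.2 : ℝ) < d.2 + 1 := by linarith
    exact_mod_cast this
  have h4 : d.2 < c.2 + 1 := by
    have : (d.2 : ℝ) < c.2 + 1 := by linarith
    exact_mod_cast this
  ext
  · omega
  · omega

theorem volume_region (S : Finset (ℤ × ℤ)) : volume (region S) = S.card := by
  have h1 : volume (⋃ c ∈ S, ocell c) = S.card := by
    rw [measure_biUnion_finset (fun c _ d _ hcd => ocell_disjoint hcd)
      (fun c _ => (isOpen_rect _ _ _ _).measurableSet)]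
    have : ∀ c ∈ S, volume (ocell c) = 1 := by
      intro c _
      rw [ocell, volume_rect]
      simp
    rw [Finset.sum_congr rfl this]
    simp
  rw [← h1]
  apply le_antisymm
  · have hsub : region S ⊆ (⋃ c ∈ S, ocell c) ∪ grid intSet := by
      intro x hx
      by_cases hg : x ∈ grid intSet
      · exact Or.inr hg
      · simp only [grid, mem_setOf_eq, not_or] at hg
        obtain ⟨c, hc, h⟩ := mem_ocell hx hg.1 hg.2
        exact Or.inl (mem_biUnion hc h)
    calc volume (region S) ≤ volume ((⋃ c ∈ S, ocell c) ∪ grid intSet) := measure_mono hsub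
      _ ≤ volume (⋃ c ∈ S, ocell c) + volume (grid intSet) := measure_union_le _ _
      _ = volume (⋃ c ∈ S, ocell c) := by rw [volume_grid intSet_countable, add_zero]
  · apply measure_mono
    exact iUnion₂_mono fun c _ => ocell_sub_cell c

end Pool.Agent.Lib.MP_1e8db4_co
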