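import Pool.Agent.Lib.MP_1e8db4_co.Global
import Pool.Agent.Lib.MP_1e8db4_co.Region
import Mathlib.MeasureTheory.Function.Jacobian
import Mathlib.Analysis.InnerProductSpace.Calculus
import Mathlib.Analysis.SpecialFunctions.Trigonometric.Complex

/-!
Foldings preserve area.
-/

set_option autoImplicit false

namespace Pool.Agent.Lib.MP_1e8db4_co

open Set Metric MeasureTheory
open scoped ENNReal NNReal Real

variable {ℓ a b : ℝ} {i j k : Fin 3} {P : Set E2} {f : E2 → E3}

theorem pair_eq {a b a' b' : ℝ} (h1 : a + b = a' + b') (h2 : a * b = a' * b') :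
    (a = a' ∧ b = b') ∨ (a = b' ∧ b = a') := by
  have h : (a - a') * (a - b') = 0 := by
    have : a' = a + b - b' := by linarith
    subst this
    nlinarith
  rcases mul_eq_zero.1 h with h | h
  · left
    constructor <;> linarith
  · right
    constructor <;> linarith

theorem HH_eq {p p' : E2} (h : HH ℓ p = HH ℓ p') :
    (cs ℓ (p 0) = cs ℓ (p' 0) ∧ cs ℓ (p 1) = cs ℓ (p' 1)) ∨
      (cs ℓ (p 0) = cs ℓ (p' 1) ∧ cs ℓ (p 1) = cs ℓ (p' 0)) := by
  have h1 := congrArg Prod.fst h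
  have h2 := congrArg Prod.snd h
  simp only [HH] at h1 h2
  exact pair_eq (by linarith) (by linarith)

theorem cs_eq (hℓ : ℓ ≠ 0) {s t : ℝ} (h : cs ℓ s = cs ℓ t) :
    ∃ n : ℤ, t = s + n * ℓ ∨ t = -s + n * ℓ := by
  obtain ⟨k, hk⟩ := Real.cos_eq_cos_iff.1 h
  have hπ := Real.pi_ne_zero
  refine ⟨k, ?_⟩
  rcases hk with hk | hk
  · left
    field_simp at hk
    linarith
  · right
    field_simp at hk
    linarith

theorem det_isom (L : E2 ≃ₗᵢ[ℝ] E2) :
    |((L.toContinuousLinearEquiv : E2 →L[ℝ] E2) : E2 →ₗ[ℝ] E2).det| = 1 := by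
  have h := Measure.addHaar_image_continuousLinearMap (volume : Measure E2)
    (L.toContinuousLinearEquiv : E2 →L[ℝ] E2) (ball 0 1)
  have h1 : ((L.toContinuousLinearEquiv : E2 →L[ℝ] E2) : E2 → E2) '' ball 0 1 = ball 0 1 := by
    have := L.image_ball 0 1
    rw [map_zero] at this
    exact this
  rw [h1] at h
  have h0 : volume (ball (0 : E2) 1) ≠ 0 := (measure_ball_pos _ _ one_pos).ne'
  have ht : volume (ball (0 : E2) 1) ≠ ⊤ := measure_ball_lt_top.ne
  have h2 : ENNReal.ofReal |((L.toContinuousLinearEquiv : E2 →L[ℝ] E2) : E2 →ₗ[ℝ] E2).det| = 1 := by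
    have h3 : 1 * volume (ball (0 : E2) 1) =
        ENNReal.ofReal |((L.toContinuousLinearEquiv : E2 →L[ℝ] E2) : E2 →ₗ[ℝ] E2).det| *
          volume (ball (0 : E2) 1) := by
      rw [one_mul]; exact h
    exact ((ENNReal.mul_left_inj h0 ht).1 h3).symm
  have h3 := congrArg ENNReal.toReal h2
  rw [ENNReal.toReal_ofReal (abs_nonneg _)] at h3
  simpa using h3

/-- a countable family of maps -/
noncomputable def gmap (ℓ : ℝ) (L : E2 ≃ₗᵢ[ℝ] E2) (c : E2) (w : Bool × ℤ × ℤ × ℤ × ℤ) (z : E2) :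
    E2 :=
  mk2 ((w.2.1 : ℝ) * (L z + c) (if w.1 then 1 else 0) + w.2.2.1 * ℓ)
    ((w.2.2.2.1 : ℝ) * (L z + c) (if w.1 then 0 else 1) + w.2.2.2.2 * ℓ)

theorem gmap_diff (L : E2 ≃ₗᵢ[ℝ] E2) (c : E2) (w : Bool × ℤ × ℤ × ℤ × ℤ) :
    Differentiable ℝ (gmap ℓ L c w) := by
  have h : ∀ m : Fin 2, Differentiable ℝ (fun z : E2 => (L z + c) m) := by
    intro m
    have h2 : Differentiable ℝ (fun y : E2 => L y + c) := L.differentiable.add_const c
    exact (EuclideanSpace.proj (𝕜 := ℝ) m).differentiable.comp h2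
  rw [differentiable_euclidean]
  intro m
  fin_cases m
  · exact ((h _).const_mul _).add_const _
  · exact ((h _).const_mul _).add_const _

theorem null_fold (hℓ : ℓ ≠ 0) (L : E2 ≃ₗᵢ[ℝ] E2) (c : E2) {A : Set E2} (hA : volume A = 0) :
    volume {p : E2 | ∃ z ∈ A, HH ℓ p = HH ℓ (L z + c)} = 0 := by
  have hsub : {p : E2 | ∃ z ∈ A, HH ℓ p = HH ℓ (L z + c)} ⊆
      ⋃ w : Bool × ℤ × ℤ × ℤ × ℤ, gmap ℓ L c w '' A := by
    rintro p ⟨z, hz, h⟩
    have key : ∀ s t : ℝ, cs ℓ s = cs ℓ t → ∃ e n : ℤ, s = (e : ℝ) * t + n * ℓ := by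
      intro s t hst
      obtain ⟨n, hn | hn⟩ := cs_eq hℓ hst.symm
      · exact ⟨1, n, by push_cast; linarith⟩
      · exact ⟨-1, n, by push_cast; linarith⟩
    have ext2 : ∀ q q' : E2, q 0 = q' 0 → q 1 = q' 1 → q = q' := by
      intro q q' h0 h1
      ext m
      fin_cases m
      · exact h0
      · exact h1
    rw [mem_iUnion]
    rcases HH_eq h with ⟨h0, h1⟩ | ⟨h0, h1⟩
    · obtain ⟨e0, n0, hn0⟩ := key _ _ h0
      obtain ⟨e1, n1, hn1⟩ := key _ _ h1
      refine ⟨(false, e0, n0, e1, n1), z, hz, ?_⟩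
      apply ext2
      · simp [gmap, hn0]
      · simp [gmap, hn1]
    · obtain ⟨e0, n0, hn0⟩ := key _ _ h0
      obtain ⟨e1, n1, hn1⟩ := key _ _ h1
      refine ⟨(true, e0, n0, e1, n1), z, hz, ?_⟩
      apply ext2
      · simp [gmap, hn0]
      · simp [gmap, hn1]
  refine measure_mono_null hsub (measure_iUnion_null fun w => ?_)
  exact addHaar_image_eq_zero_of_differentiableOn_of_addHaar_eq_zero volume
    (gmap_diff L c w).differentiableOn hA

/-- the part of the interior mapped to an open face -/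
def UU (P : Set E2) (ℓ : ℝ) (f : E2 → E3) (i j k : Fin 3) (b : ℝ) : Set E2 :=
  {z | z ∈ interior P ∧ f z j = b ∧ 0 < f z i ∧ f z i < ℓ ∧ 0 < f z k ∧ f z k < ℓ}

theorem Fold.isOpen_UU (hF : Fold P ℓ f) (hij : i ≠ j) (hik : i ≠ k) (hjk : j ≠ k)
    (hb : b = 0 ∨ b = ℓ) : IsOpen (UU P ℓ f i j k b) := by
  rw [Metric.isOpen_iff]
  rintro x ⟨hx, hj, hi0, hi1, hk0, hk1⟩
  obtain ⟨r, hr, L, c, hsub, h⟩ := hF.face_local hx hij hik hjk hb hj hi0 hi1 hk0 hk1
  refine ⟨r, hr, fun y hy => ⟨?_, (h y hy).1⟩⟩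
  exact interior_maximal hsub isOpen_ball hy

theorem pr_continuous (i k : Fin 3) : Continuous (pr i k) := by
  have h : ∀ m : Fin 3, Continuous (fun q : E3 => q m) := fun m =>
    (EuclideanSpace.proj (𝕜 := ℝ) m).continuous
  apply (PiLp.continuous_toLp 2 (fun _ : Fin 2 => ℝ)).comp
  apply continuous_pi
  intro m
  fin_cases m
  · exact h i
  · exact h k

/-- **Area of the preimage of a part of a face.** -/
theorem Fold.area_face (hF : Fold P ℓ f) (hℓ : 0 < ℓ) {L : E2 ≃ₗᵢ[ℝ] E2} {c : E2}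
    (hT : ∀ y ∈ P, GG ℓ (f y) = HH ℓ (L y + c)) (hnull : volume (P \ interior P) = 0)
    (hij : i ≠ j) (hik : i ≠ k) (hjk : j ≠ k) (hb : b = 0 ∨ b = ℓ) {B : Set E2} (hB : IsOpen B)
    (hBsub : B ⊆ rect 0 ℓ 0 ℓ) :
    volume {z | z ∈ UU P ℓ f i j k b ∧ pr i k (f z) ∈ B} = volume B := by
  set W : Set E2 := {z | z ∈ UU P ℓ f i j k b ∧ pr i k (f z) ∈ B} with hW
  have hUopen := hF.isOpen_UU hij hik hjk hb
  have hUP : UU P ℓ f i j k b ⊆ interior P := fun z hz => hz.1
  have hWopen : IsOpen W := by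
    have hc : ContinuousOn (fun z => pr i k (f z)) (UU P ℓ f i j k b) :=
      (pr_continuous i k).comp_continuousOn (hF.cont.mono (hUP.trans interior_subset))
    exact hc.isOpen_inter_preimage hUopen hB
  -- local forms
  have hloc : ∀ x ∈ W, ∃ r > 0, ∃ (L : E2 ≃ₗᵢ[ℝ] E2) (c : E2), ball x r ⊆ P ∧
      ∀ y ∈ ball x r, (f y j = b ∧ 0 < f y i ∧ f y i < ℓ ∧ 0 < f y k ∧ f y k < ℓ) ∧
        pr i k (f y) = L y + c := by
    rintro x ⟨⟨hx, hj, hi0, hi1, hk0, hk1⟩, _⟩
    exact hF.face_local hx hij hik hjk hb hj hi0 hi1 hk0 hk1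
  choose! r hr L' c' hsub' hL' using hloc
  have hderiv : ∀ x ∈ W, HasFDerivWithinAt (fun z => pr i k (f z))
      ((L' x).toContinuousLinearEquiv : E2 →L[ℝ] E2) W x := by
    intro x hx
    have h1 : HasFDerivAt (fun z => L' x z + c' x)
        ((L' x).toContinuousLinearEquiv : E2 →L[ℝ] E2) x := by
      have h2 : HasFDerivAt (fun z => L' x z)
        ((L' x).toContinuousLinearEquiv : E2 →L[ℝ] E2) x :=
        ((L' x).toContinuousLinearEquiv : E2 →L[ℝ] E2).hasFDerivAt
      exact h2.add_const _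
    have h3 : (fun z => pr i k (f z)) =ᶠ[nhds x] (fun z => L' x z + c' x) := by
      filter_upwards [ball_mem_nhds x (hr x hx)] with y hy
      exact (hL' x hx y hy).2
    exact (h1.congr_of_eventuallyEq h3).hasFDerivWithinAt
  have hinj : InjOn (fun z => pr i k (f z)) W := by
    intro x hx y hy hxy
    have hxy' : pr i k (f x) = pr i k (f y) := hxy
    have hd : dist (f x) (f y) = 0 := by
      rw [← pr_dist hij hik hjk hx.1.2.1 hy.1.2.1, hxy', dist_self]
    exact hF.inj x hx.1.1 y (interior_subset hy.1.1) (dist_eq_zero.1 hd)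
  have hchange := lintegral_abs_det_fderiv_eq_addHaar_image (volume : Measure E2)
    hWopen.measurableSet hderiv hinj
  have hone : (∫⁻ x in W, ENNReal.ofReal
      |(((L' x).toContinuousLinearEquiv : E2 →L[ℝ] E2)).det| ∂volume) = volume W := by
    have : ∀ x, ENNReal.ofReal |(((L' x).toContinuousLinearEquiv : E2 →L[ℝ] E2)).det| = 1 := by
      intro x
      have h1 := det_isom (L' x)
      rw [ContinuousLinearMap.det, h1]
      simp
    simp only [this]
    simp
  rw [hone] at hchange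
  rw [hchange]
  apply le_antisymm
  · apply measure_mono
    rintro _ ⟨z, hz, rfl⟩
    exact hz.2
  · have hN : volume {p : E2 | ∃ z ∈ P \ interior P, HH ℓ p = HH ℓ (L z + c)} = 0 :=
      null_fold hℓ.ne' L c hnull
    have hcover : B ⊆ (fun z => pr i k (f z)) '' W ∪
        {p : E2 | ∃ z ∈ P \ interior P, HH ℓ p = HH ℓ (L z + c)} := by
      intro p hp
      obtain ⟨p0, p1, p2, p3⟩ := hBsub hp
      set q : E3 := WithLp.toLp 2 (fun m => if m = i then p 0 else if m = j then b else p 1)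
        with hq
      have qi : q i = p 0 := by simp [hq]
      have qj : q j = b := by simp [hq, hij.symm]
      have qk : q k = p 1 := by simp [hq, hik.symm, hjk.symm]
      have hprq : pr i k q = p := by
        ext m
        fin_cases m
        · exact qi
        · exact qk
      have hqc : q ∈ cubeSurface ℓ := by
        constructor
        · intro m
          rcases cases3 hij hik hjk m with rfl | rfl | rfl
          · rw [qi]; exact ⟨p0.le, p1.le⟩
          · rw [qj]
            rcases hb with rfl | rfl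
            · exact ⟨le_rfl, hℓ.le⟩
            · exact ⟨hℓ.le, le_rfl⟩
          · rw [qk]; exact ⟨p2.le, p3.le⟩
        · refine ⟨j, ?_⟩
          rw [qj]; exact hb
      rw [← hF.surj] at hqc
      obtain ⟨z, hz, hzq⟩ := hqc
      by_cases hzi : z ∈ interior P
      · left
        refine ⟨z, ⟨⟨hzi, ?_, ?_, ?_, ?_, ?_⟩, ?_⟩, ?_⟩
        · rw [hzq, qj]
        · rw [hzq, qi]; exact p0
        · rw [hzq, qi]; exact p1
        · rw [hzq, qk]; exact p2
        · rw [hzq, qk]; exact p3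
        · rw [hzq, hprq]; exact hp
        · show pr i k (f z) = p
          rw [hzq, hprq]
      · right
        refine ⟨z, ⟨hz, hzi⟩, ?_⟩
        rw [← hT z hz, hzq, ← GG_pr hij hik hjk hℓ.ne' hb qj, hprq]
    calc volume B ≤ volume ((fun z => pr i k (f z)) '' W ∪
          {p : E2 | ∃ z ∈ P \ interior P, HH ℓ p = HH ℓ (L z + c)}) := measure_mono hcover
      _ ≤ volume ((fun z => pr i k (f z)) '' W) +
          volume {p : E2 | ∃ z ∈ P \ interior P, HH ℓ p = HH ℓ (L z + c)} :=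
        measure_union_le _ _
      _ = volume ((fun z => pr i k (f z)) '' W) := by rw [hN, add_zero]

end Pool.Agent.Lib.MP_1e8db4_co
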