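import Pool.Agent.Lib.MP_1e8db4_co.Defs
import Mathlib.Analysis.InnerProductSpace.Adjoint

/-!
Distance preserving maps on balls of the plane are restrictions of rigid motions.
-/

set_option autoImplicit false

namespace Pool.Agent.Lib.MP_1e8db4_co

open Set Metric

theorem extend_ball {φ : E2 → E2} {x : E2} {r : ℝ} (hr : 0 < r)
    (h : ∀ y ∈ ball x r, ∀ z ∈ ball x r, dist (φ y) (φ z) = dist y z) :
    ∃ (L : E2 ≃ₗᵢ[ℝ] E2) (c : E2), ∀ y ∈ ball x r, φ y = L y + c := by
  set ψ : E2 → E2 := fun v => φ (x + v) - φ x with hψ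
  have hball : ∀ v : E2, ‖v‖ < r → x + v ∈ ball x r := by
    intro v hv
    rw [mem_ball, dist_eq_norm, add_sub_cancel_left]
    exact hv
  have hx : x ∈ ball x r := mem_ball_self hr
  have hn : ∀ v : E2, ‖v‖ < r → ‖ψ v‖ = ‖v‖ := by
    intro v hv
    simp only [hψ]
    rw [← dist_eq_norm, h _ (hball v hv) _ hx, dist_eq_norm, add_sub_cancel_left]
  have hd : ∀ v w : E2, ‖v‖ < r → ‖w‖ < r → ‖ψ v - ψ w‖ = ‖v - w‖ := by
    intro v w hv hw
    simp only [hψ]
    rw [sub_sub_sub_cancel_right, ← dist_eq_norm, h _ (hball v hv) _ (hball w hw), dist_eq_norm,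
      add_sub_add_left_eq_sub]
  have hin : ∀ v w : E2, ‖v‖ < r → ‖w‖ < r → inner ℝ (ψ v) (ψ w) = inner ℝ v w := by
    intro v w hv hw
    rw [real_inner_eq_norm_mul_self_add_norm_mul_self_sub_norm_sub_mul_self_div_two,
      real_inner_eq_norm_mul_self_add_norm_mul_self_sub_norm_sub_mul_self_div_two,
      hn v hv, hn w hw, hd v w hv hw]
  set s : ℝ := r / 2 with hs
  have hs0 : 0 < s := by positivity
  set e : OrthonormalBasis (Fin 2) ℝ E2 := EuclideanSpace.basisFun (Fin 2) ℝ with he
  have hse : ∀ i, ‖s • e i‖ < r := by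
    intro i
    rw [norm_smul, e.orthonormal.1 i, mul_one, Real.norm_eq_abs, abs_of_pos hs0, hs]
    linarith
  set g : Fin 2 → E2 := fun i => s⁻¹ • ψ (s • e i) with hg
  have hgin : ∀ i (v : E2), ‖v‖ < r → inner ℝ (g i) (ψ v) = inner ℝ (e i) v := by
    intro i v hv
    simp only [hg]
    rw [real_inner_smul_left, hin _ _ (hse i) hv, real_inner_smul_left]
    field_simp
  have hon : Orthonormal ℝ g := by
    rw [orthonormal_iff_ite]
    intro i j
    have h1 := hgin i (s • e j) (hse j)
    have h2 : inner ℝ (g i) (g j) = s⁻¹ * inner ℝ (g i) (ψ (s • e j)) := by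
      simp only [hg]
      rw [real_inner_smul_right]
    rw [h2, h1, real_inner_smul_right, orthonormal_iff_ite.1 e.orthonormal i j]
    split_ifs
    · field_simp
    · simp
  have hspan : ⊤ ≤ Submodule.span ℝ (Set.range g) := by
    rw [hon.linearIndependent.span_eq_top_of_card_eq_finrank (by simp)]
  set b : OrthonormalBasis (Fin 2) ℝ E2 := OrthonormalBasis.mk hon hspan with hb
  have hbg : ∀ i, b i = g i := by
    intro i
    rw [hb, OrthonormalBasis.coe_mk]
  set L : E2 ≃ₗᵢ[ℝ] E2 := e.equiv b (Equiv.refl _) with hL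
  have hLe : ∀ i, L (e i) = g i := by
    intro i
    rw [hL, OrthonormalBasis.equiv_apply_basis, Equiv.refl_apply, hbg]
  have key : ∀ v : E2, ‖v‖ < r → ψ v = L v := by
    intro v hv
    apply b.repr.injective
    ext i
    rw [OrthonormalBasis.repr_apply_apply, OrthonormalBasis.repr_apply_apply, hbg, hgin i v hv,
      ← hLe, LinearIsometryEquiv.inner_map_map]
  refine ⟨L, φ x - L x, fun y hy => ?_⟩
  have h1 : ‖y - x‖ < r := by rw [← dist_eq_norm]; exact hy
  have h2 := key _ h1
  simp only [hψ, add_sub_cancel, map_sub] at h2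
  have h3 : φ y = L y - L x + φ x := by rw [← h2]; abel
  rw [h3]
  abel

end Pool.Agent.Lib.MP_1e8db4_co
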