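import Pool.Agent.Lib.MP_1e8db4_co.PathMetric
import Pool.Agent.Lib.MP_1e8db4_co.Extend

/-!
Unfolding the surface of the cube along an edge.
-/

set_option autoImplicit false

namespace Pool.Agent.Lib.MP_1e8db4_co

open Set Metric
open scoped ENNReal NNReal

/-- the coordinate at distance `t` from the side `a` -/
noncomputable def ins (ℓ a t : ℝ) : ℝ := if a = 0 then t else ℓ - t

/-- the vector of the plane with given coordinates -/
noncomputable def mk2 (s t : ℝ) : E2 := WithLp.toLp 2 ![s, t]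

@[simp] theorem mk2_zero (s t : ℝ) : mk2 s t 0 = s := rfl
@[simp] theorem mk2_one (s t : ℝ) : mk2 s t 1 = t := rfl

/-- unfolding along the edge given by the sides `a`, `b` of the coordinates `i`, `j` -/
noncomputable def unf (i j k : Fin 3) (a b : ℝ) (q : E3) : E2 := mk2 (|q i - a| - |q j - b|) (q k)

/-- folding along the edge given by the sides `a`, `b` of the coordinates `i`, `j` -/
noncomputable def fld (i j : Fin 3) (ℓ a b : ℝ) (p : E2) : E3 :=
  WithLp.toLp 2 fun m => if m = i then ins ℓ a (max (p 0) 0) else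
    if m = j then ins ℓ b (max (-p 0) 0) else p 1

section

variable {ℓ a b : ℝ} {i j k : Fin 3}

theorem ins_abs (ha : a = 0 ∨ a = ℓ) {x : ℝ} (h0 : 0 ≤ x) (h1 : x ≤ ℓ) : ins ℓ a |x - a| = x := by
  unfold ins
  split_ifs with h
  · rw [h, sub_zero, abs_of_nonneg h0]
  · have ha' : a = ℓ := ha.resolve_left h
    rw [ha', abs_of_nonpos (by linarith)]
    ring

theorem ins_side (ha : a = 0 ∨ a = ℓ) : ins ℓ a 0 = a := by
  unfold ins
  split_ifs with h
  · exact h.symm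
  · rw [ha.resolve_left h, sub_zero]

theorem ins_mem {t : ℝ} (h0 : 0 ≤ t) (h1 : t ≤ ℓ) : 0 ≤ ins ℓ a t ∧ ins ℓ a t ≤ ℓ := by
  unfold ins
  split_ifs with h
  · exact ⟨h0, h1⟩
  · constructor <;> linarith

theorem ins_sub (s t : ℝ) : (ins ℓ a s - ins ℓ a t) ^ 2 = (s - t) ^ 2 := by
  unfold ins
  split_ifs with h
  · rfl
  · ring

theorem abs_side (ha : a = 0 ∨ a = ℓ) {x y : ℝ} (hx0 : 0 ≤ x) (hx1 : x ≤ ℓ) (hy0 : 0 ≤ y)
    (hy1 : y ≤ ℓ) : (|x - a| - |y - a|) ^ 2 = (x - y) ^ 2 := by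
  rcases ha with rfl | rfl
  · rw [sub_zero, sub_zero, abs_of_nonneg hx0, abs_of_nonneg hy0]
  · rw [abs_of_nonpos (by linarith), abs_of_nonpos (by linarith)]
    ring

theorem fld_lip (hij : i ≠ j) (hik : i ≠ k) (hjk : j ≠ k) (p p' : E2) :
    dist (fld i j ℓ a b p) (fld i j ℓ a b p') ≤ dist p p' := by
  apply dist_le_of_sq dist_nonneg
  rw [dist3 hij hik hjk, dist2]
  have e1 : fld i j ℓ a b p i = ins ℓ a (max (p 0) 0) := by simp [fld]
  have e2 : fld i j ℓ a b p' i = ins ℓ a (max (p' 0) 0) := by simp [fld]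
  have e3 : fld i j ℓ a b p j = ins ℓ b (max (-p 0) 0) := by simp [fld, hij.symm]
  have e4 : fld i j ℓ a b p' j = ins ℓ b (max (-p' 0) 0) := by simp [fld, hij.symm]
  have e5 : fld i j ℓ a b p k = p 1 := by simp [fld, hik.symm, hjk.symm]
  have e6 : fld i j ℓ a b p' k = p' 1 := by simp [fld, hik.symm, hjk.symm]
  rw [e1, e2, e3, e4, e5, e6, ins_sub, ins_sub]
  have key : ∀ x y : ℝ, (max x 0 - max y 0) ^ 2 + (max (-x) 0 - max (-y) 0) ^ 2 ≤
      (x - y) ^ 2 := by
    intro x y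
    rcases le_total 0 x with hx | hx <;> rcases le_total 0 y with hy | hy
    · rw [max_eq_left hx, max_eq_left hy, max_eq_right (by linarith), max_eq_right (by linarith)]
      nlinarith
    · rw [max_eq_left hx, max_eq_right hy, max_eq_right (by linarith), max_eq_left (by linarith)]
      nlinarith [mul_nonneg hx (neg_nonneg.2 hy)]
    · rw [max_eq_right hx, max_eq_left hy, max_eq_left (by linarith), max_eq_right (by linarith)]
      nlinarith [mul_nonneg (neg_nonneg.2 hx) hy]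
    · rw [max_eq_right hx, max_eq_right hy, max_eq_left (by linarith), max_eq_left (by linarith)]
      nlinarith
  have := key (p 0) (p' 0)
  linarith

theorem fld_mem (hij : i ≠ j) (hik : i ≠ k) (hjk : j ≠ k) (hℓ : 0 ≤ ℓ) (ha : a = 0 ∨ a = ℓ)
    (hb : b = 0 ∨ b = ℓ) {p : E2} (h1 : -ℓ ≤ p 0) (h2 : p 0 ≤ ℓ) (h3 : 0 ≤ p 1) (h4 : p 1 ≤ ℓ) :
    fld i j ℓ a b p ∈ cubeSurface ℓ := by
  have e1 : fld i j ℓ a b p i = ins ℓ a (max (p 0) 0) := by simp [fld]
  have e3 : fld i j ℓ a b p j = ins ℓ b (max (-p 0) 0) := by simp [fld, hij.symm]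
  have e5 : fld i j ℓ a b p k = p 1 := by simp [fld, hik.symm, hjk.symm]
  constructor
  · intro m
    rcases cases3 hij hik hjk m with rfl | rfl | rfl
    · rw [e1]
      exact ins_mem (le_max_right _ _) (max_le h2 hℓ)
    · rw [e3]
      exact ins_mem (le_max_right _ _) (max_le (by linarith) hℓ)
    · rw [e5]
      exact ⟨h3, h4⟩
  · rcases le_total 0 (p 0) with h | h
    · refine ⟨j, ?_⟩
      rw [e3, max_eq_right (by linarith), ins_side hb]
      exact hb
    · refine ⟨i, ?_⟩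
      rw [e1, max_eq_right h, ins_side ha]
      exact ha

theorem fld_unf (hij : i ≠ j) (hik : i ≠ k) (hjk : j ≠ k) (ha : a = 0 ∨ a = ℓ)
    (hb : b = 0 ∨ b = ℓ) {q : E3} (hq : q ∈ cubeSurface ℓ) (hs : q i = a ∨ q j = b) :
    fld i j ℓ a b (unf i j k a b q) = q := by
  have hqi := hq.1 i
  have hqj := hq.1 j
  have e1 : fld i j ℓ a b (unf i j k a b q) i = ins ℓ a (max (|q i - a| - |q j - b|) 0) := by
    simp [fld, unf]
  have e3 : fld i j ℓ a b (unf i j k a b q) j = ins ℓ b (max (-(|q i - a| - |q j - b|)) 0) := by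
    simp [fld, unf, hij.symm]
  have e5 : fld i j ℓ a b (unf i j k a b q) k = q k := by
    simp [fld, unf, hik.symm, hjk.symm]
  ext m
  rcases cases3 hij hik hjk m with rfl | rfl | rfl
  · rw [e1]
    rcases hs with h | h
    · rw [h, sub_self, abs_zero, zero_sub, max_eq_right (by simp), ins_side ha]
    · rw [h, sub_self, abs_zero, sub_zero, max_eq_left (abs_nonneg _), ins_abs ha hqi.1 hqi.2]
  · rw [e3]
    rcases hs with h | h
    · rw [h, sub_self, abs_zero, zero_sub, neg_neg, max_eq_left (abs_nonneg _),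
        ins_abs hb hqj.1 hqj.2]
    · rw [h, sub_self, abs_zero, sub_zero, max_eq_right (by simp), ins_side hb]
  · exact e5

theorem abs_side_le (ha : a = 0 ∨ a = ℓ) {x : ℝ} (h0 : 0 ≤ x) (h1 : x ≤ ℓ) : |x - a| ≤ ℓ := by
  rcases ha with rfl | rfl
  · rw [sub_zero, abs_of_nonneg h0]; exact h1
  · rw [abs_of_nonpos (by linarith)]; linarith

theorem unf_box (ha : a = 0 ∨ a = ℓ) (hb : b = 0 ∨ b = ℓ) {q : E3} (hq : q ∈ cubeSurface ℓ) :
    -ℓ ≤ unf i j k a b q 0 ∧ unf i j k a b q 0 ≤ ℓ ∧ 0 ≤ unf i j k a b q 1 ∧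
      unf i j k a b q 1 ≤ ℓ := by
  have h1 := abs_side_le ha (hq.1 i).1 (hq.1 i).2
  have h2 := abs_side_le hb (hq.1 j).1 (hq.1 j).2
  have h3 := abs_nonneg (q i - a)
  have h4 := abs_nonneg (q j - b)
  simp only [unf, mk2_zero, mk2_one]
  exact ⟨by linarith, by linarith, (hq.1 k).1, (hq.1 k).2⟩

theorem lineMap_coord (p p' : E2) (t : ℝ) (m : Fin 2) :
    (AffineMap.lineMap p p' t : E2) m = (1 - t) * p m + t * p' m := by
  simp [AffineMap.lineMap_apply]
  ring

theorem pathDist_le_unf (hij : i ≠ j) (hik : i ≠ k) (hjk : j ≠ k) (hℓ : 0 ≤ ℓ)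
    (ha : a = 0 ∨ a = ℓ) (hb : b = 0 ∨ b = ℓ) {q q' : E3} (hq : q ∈ cubeSurface ℓ)
    (hs : q i = a ∨ q j = b) (hq' : q' ∈ cubeSurface ℓ) (hs' : q' i = a ∨ q' j = b) :
    pathDist (cubeSurface ℓ) q q' ≤ edist (unf i j k a b q) (unf i j k a b q') := by
  rw [edist_nndist]
  apply pathDist_le (γ := fun t => fld i j ℓ a b
    (AffineMap.lineMap (unf i j k a b q) (unf i j k a b q') t))
  · intro s _ t _
    refine (fld_lip hij hik hjk _ _).trans ?_
    rw [dist_lineMap_lineMap, coe_nndist, mul_comm]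
  · intro t ht
    obtain ⟨a1, a2, a3, a4⟩ := unf_box (i := i) (j := j) (k := k) ha hb hq
    obtain ⟨b1, b2, b3, b4⟩ := unf_box (i := i) (j := j) (k := k) ha hb hq'
    have t0 := ht.1
    have t1 : 0 ≤ 1 - t := sub_nonneg.2 ht.2
    apply fld_mem hij hik hjk hℓ ha hb
    · rw [lineMap_coord]
      nlinarith [mul_nonneg t1 (sub_nonneg.2 a1), mul_nonneg t0 (sub_nonneg.2 b1)]
    · rw [lineMap_coord]
      nlinarith [mul_nonneg t1 (sub_nonneg.2 a2), mul_nonneg t0 (sub_nonneg.2 b2)]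
    · rw [lineMap_coord]
      nlinarith [mul_nonneg t1 a3, mul_nonneg t0 b3]
    · rw [lineMap_coord]
      nlinarith [mul_nonneg t1 (sub_nonneg.2 a4), mul_nonneg t0 (sub_nonneg.2 b4)]
  · simp [fld_unf hij hik hjk ha hb hq hs]
  · simp [fld_unf hij hik hjk ha hb hq' hs']

theorem unf_dist_face1 (hij : i ≠ j) (hik : i ≠ k) (hjk : j ≠ k) (ha : a = 0 ∨ a = ℓ)
    {q q' : E3} (hq : q ∈ cubeSurface ℓ) (hq' : q' ∈ cubeSurface ℓ)
    (h : q j = b) (h' : q' j = b) :
    dist (unf i j k a b q) (unf i j k a b q') = dist q q' := by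
  have key : dist (unf i j k a b q) (unf i j k a b q') ^ 2 = dist q q' ^ 2 := by
    rw [dist2, dist3 hij hik hjk]
    simp only [unf, mk2_zero, mk2_one, h, h', sub_self, abs_zero, sub_zero]
    rw [abs_side ha (hq.1 i).1 (hq.1 i).2 (hq'.1 i).1 (hq'.1 i).2]
    ring
  exact (sq_eq_sq₀ dist_nonneg dist_nonneg).1 key

theorem unf_dist_face2 (hij : i ≠ j) (hik : i ≠ k) (hjk : j ≠ k) (hb : b = 0 ∨ b = ℓ)
    {q q' : E3} (hq : q ∈ cubeSurface ℓ) (hq' : q' ∈ cubeSurface ℓ)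
    (h : q i = a) (h' : q' i = a) :
    dist (unf i j k a b q) (unf i j k a b q') = dist q q' := by
  have key : dist (unf i j k a b q) (unf i j k a b q') ^ 2 = dist q q' ^ 2 := by
    rw [dist2, dist3 hij hik hjk]
    simp only [unf, mk2_zero, mk2_one, h, h', sub_self, abs_zero, zero_sub]
    have := abs_side hb (hq.1 j).1 (hq.1 j).2 (hq'.1 j).1 (hq'.1 j).2
    have e : (-|q j - b| - -|q' j - b|) ^ 2 = (|q j - b| - |q' j - b|) ^ 2 := by ring
    rw [e, this]
    ring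
  exact (sq_eq_sq₀ dist_nonneg dist_nonneg).1 key

end

end Pool.Agent.Lib.MP_1e8db4_co
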