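import Pool.Agent.Lib.MP_1e8db4_co.Vertex

/-!
Every vertex of the cube is the image of a lattice point.
-/

set_option autoImplicit false

namespace Pool.Agent.Lib.MP_1e8db4_co

open Set Metric MeasureTheory Filter Topology
open scoped ENNReal NNReal Real

variable {ℓ : ℝ} {f : E2 → E3} {L : E2 ≃ₗᵢ[ℝ] E2} {c : E2} {V : E3} {S : Finset (ℤ × ℤ)}

theorem developed_bounded (S : Finset (ℤ × ℤ)) (L : E2 ≃ₗᵢ[ℝ] E2) (c : E2) :
    ∃ M : ℝ, ∀ z ∈ region S, ∀ m, |(L z + c) m| ≤ M := by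
  obtain ⟨M0, hM0⟩ := region_bounded S
  refine ⟨2 * |M0| + (|c 0| + |c 1|), fun z hz m => ?_⟩
  have h0 := (hM0 z hz 0).trans (le_abs_self M0)
  have h1 := (hM0 z hz 1).trans (le_abs_self M0)
  have hd : dist z 0 ≤ 2 * |M0| := by
    apply dist_le_of_sq (by positivity)
    rw [dist2]
    simp only [PiLp.zero_apply, sub_zero]
    have e0 : z 0 ^ 2 ≤ |M0| ^ 2 := by
      rw [← sq_abs (z 0)]
      gcongr
    have e1 : z 1 ^ 2 ≤ |M0| ^ 2 := by
      rw [← sq_abs (z 1)]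
      gcongr
    nlinarith
  have h2 : |(L z + c) m - (L 0 + c) m| ≤ dist z 0 := by
    have := coord_le2 (L z + c) (L 0 + c) m
    rwa [dist_add_right, L.dist_map] at this
  have h3 : (L 0 + c) m = c m := by rw [map_zero, zero_add]
  rw [h3] at h2
  have h4 : |c m| ≤ |c 0| + |c 1| := by
    fin_cases m
    · show |c 0| ≤ _
      linarith [abs_nonneg (c 1)]
    · show |c 1| ≤ _
      linarith [abs_nonneg (c 0)]
  have h5 : |(L z + c) m| ≤ |(L z + c) m - c m| + |c m| := by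
    have := abs_add_le ((L z + c) m - c m) (c m)
    rwa [sub_add_cancel] at this
  linarith

/-- the contribution of a point of the lattice of mirrors -/
theorem Fold.local_area (hF : Fold (region S) ℓ f) (hℓ : 0 < ℓ)
    (hT : ∀ y ∈ region S, GG ℓ (f y) = HH ℓ (L y + c)) (hV : IsVertex ℓ V)
    (hno : ∀ x ∈ region S, f x = V → ¬ (x 0 ∈ intSet ∧ x 1 ∈ intSet)) (n0 n1 : ℤ) :
    ∃ m : ℕ, Even m ∧ ∀ᶠ ρ in 𝓝[>] (0 : ℝ),
      volume (WW (region S) f V ρ ∩ KK L c (n0 * ℓ) (n1 * ℓ) ρ) =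
        ENNReal.ofReal (m * ρ ^ 2) := by
  set P : Set E2 := region S with hP
  have hPc : IsClosed P := isClosed_region S
  set x : E2 := L.symm (mk2 (n0 * ℓ) (n1 * ℓ) - c) with hx
  have hTx : L x + c = mk2 (n0 * ℓ) (n1 * ℓ) := by
    rw [hx, LinearIsometryEquiv.apply_symm_apply, sub_add_cancel]
  have hx0 : (L x + c) 0 = n0 * ℓ := by rw [hTx]; rfl
  have hx1 : (L x + c) 1 = n1 * ℓ := by rw [hTx]; rfl
  have hsmall : ∀ δ : ℝ, 0 < δ → ∀ᶠ ρ in 𝓝[>] (0 : ℝ), 0 < ρ ∧ ρ < δ := by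
    intro δ hδ
    filter_upwards [Ioo_mem_nhdsGT hδ] with ρ hρ using ⟨hρ.1, hρ.2⟩
  by_cases hxP : x ∈ P
  swap
  · -- the point is not in the polygon
    obtain ⟨ε, hε, hball⟩ := Metric.isOpen_iff.1 hPc.isOpen_compl x hxP
    refine ⟨0, by simp, ?_⟩
    filter_upwards [hsmall (ε / 2) (by positivity)] with ρ hρ
    have he : WW P f V ρ ∩ KK L c (n0 * ℓ) (n1 * ℓ) ρ = ∅ := by
      rw [Set.eq_empty_iff_forall_notMem]
      rintro z ⟨hz1, hz2⟩
      have hd := KK_near hx0 hx1 hz2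
      exact hball (mem_ball.2 (by linarith)) hz1.1
    rw [he]
    simp
  by_cases hxV : f x = V
  swap
  · -- the point is mapped elsewhere
    have hd0 : 0 < dist (f x) V := dist_pos.2 hxV
    obtain ⟨ε, hε, hcont⟩ := Metric.continuousOn_iff.1 hF.cont x hxP (dist (f x) V / 2)
      (by positivity)
    refine ⟨0, by simp, ?_⟩
    filter_upwards [hsmall (min (ε / 2) (dist (f x) V / 4)) (by positivity)] with ρ hρ
    have r1 := hρ.2.trans_le (min_le_left _ _)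
    have r2 := hρ.2.trans_le (min_le_right _ _)
    have he : WW P f V ρ ∩ KK L c (n0 * ℓ) (n1 * ℓ) ρ = ∅ := by
      rw [Set.eq_empty_iff_forall_notMem]
      rintro z ⟨hz1, hz2⟩
      have hd := KK_near hx0 hx1 hz2
      have h1 := hcont z hz1.1 (by linarith)
      have h2 : dist (f z) V ≤ 2 * ρ := by
        apply dist_le_of_sq (by linarith)
        rw [dist3 (i := 0) (j := 1) (k := 2) (by decide) (by decide) (by decide)]
        have k0 : (f z 0 - V 0) ^ 2 < ρ ^ 2 :=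
          sq_lt_sq' (by linarith [abs_lt.1 (hz1.2 0)]) (abs_lt.1 (hz1.2 0)).2
        have k1 : (f z 1 - V 1) ^ 2 < ρ ^ 2 :=
          sq_lt_sq' (by linarith [abs_lt.1 (hz1.2 1)]) (abs_lt.1 (hz1.2 1)).2
        have k2 : (f z 2 - V 2) ^ 2 < ρ ^ 2 :=
          sq_lt_sq' (by linarith [abs_lt.1 (hz1.2 2)]) (abs_lt.1 (hz1.2 2)).2
        nlinarith
      have h3 := dist_triangle_left (f x) V (f z)
      linarith
    rw [he]
    simp
  -- the point is mapped to the vertex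
  obtain ⟨ε, hε, hcont⟩ := Metric.continuousOn_iff.1 hF.cont x hxP (ℓ / 2) (by positivity)
  have heq : ∀ ρ : ℝ, 0 < ρ → ρ < min (ε / 2) (ℓ / 2) →
      WW P f V ρ ∩ KK L c (n0 * ℓ) (n1 * ℓ) ρ = P ∩ KK L c (n0 * ℓ) (n1 * ℓ) ρ := by
    intro ρ hρ0 hρ
    have r1 := hρ.trans_le (min_le_left _ _)
    have r2 := hρ.trans_le (min_le_right _ _)
    apply Set.Subset.antisymm
    · rintro z ⟨hz1, hz2⟩
      exact ⟨hz1.1, hz2⟩
    · rintro z ⟨hz1, hz2⟩
      refine ⟨?_, hz2⟩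
      have hd := KK_near hx0 hx1 hz2
      have h1 := hcont z hz1 (by linarith)
      rw [hxV] at h1
      exact hF.near_vertex hℓ hT hV r2.le hz1 hz2 h1
  rcases local_region hxP (hno x hxP hxV) with ⟨δ, hδ, hball⟩ | ⟨δ, hδ, r, s, hs, hball⟩
  · refine ⟨4, by decide, ?_⟩
    filter_upwards [hsmall (min (δ / 2) (min (ε / 2) (ℓ / 2))) (by positivity)] with ρ hρ
    have r1 := hρ.2.trans_le (min_le_left _ _)
    have r2 := hρ.2.trans_le (min_le_right _ _)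
    rw [heq ρ hρ.1 r2]
    have he : P ∩ KK L c (n0 * ℓ) (n1 * ℓ) ρ = KK L c (n0 * ℓ) (n1 * ℓ) ρ := by
      apply Set.inter_eq_right.2
      intro z hz
      exact hball (mem_ball.2 (by linarith [KK_near hx0 hx1 hz]))
    rw [he, volume_KK hρ.1]
    norm_num
  · refine ⟨2, by decide, ?_⟩
    filter_upwards [hsmall (min (δ / 2) (min (ε / 2) (ℓ / 2))) (by positivity)] with ρ hρ
    have r1 := hρ.2.trans_le (min_le_left _ _)
    have r2 := hρ.2.trans_le (min_le_right _ _)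
    rw [heq ρ hρ.1 r2]
    have he : P ∩ KK L c (n0 * ℓ) (n1 * ℓ) ρ =
        {z | z ∈ KK L c (n0 * ℓ) (n1 * ℓ) ρ ∧ 0 ≤ s * (z r - x r)} := by
      ext z
      constructor
      · rintro ⟨hz1, hz2⟩
        exact ⟨hz2, (hball z (mem_ball.2 (by linarith [KK_near hx0 hx1 hz2]))).1 hz1⟩
      · rintro ⟨hz2, hz1⟩
        exact ⟨(hball z (mem_ball.2 (by linarith [KK_near hx0 hx1 hz2]))).2 hz1, hz2⟩
    rw [he, volume_half hx0 hx1 hρ.1 r hs]
    norm_num

/-- **Every vertex of the cube is the image of a lattice point.** -/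
theorem Fold.lattice_vertex (hF : Fold (region S) ℓ f) (hℓ : 0 < ℓ)
    (hT : ∀ y ∈ region S, GG ℓ (f y) = HH ℓ (L y + c)) (hV : IsVertex ℓ V) :
    ∃ x ∈ region S, f x = V ∧ x 0 ∈ intSet ∧ x 1 ∈ intSet := by
  by_contra hcon
  have hno : ∀ x ∈ region S, f x = V → ¬ (x 0 ∈ intSet ∧ x 1 ∈ intSet) :=
    fun x hx hxV h => hcon ⟨x, hx, hxV, h⟩
  have hnull : volume (region S \ interior (region S)) = 0 :=
    measure_mono_null (region_sdiff_sub S) (volume_grid intSet_countable)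
  choose m hm using fun n : ℤ × ℤ => hF.local_area hℓ hT hV hno n.1 n.2
  obtain ⟨M, hM⟩ := developed_bounded S L c
  obtain ⟨Z, hZ⟩ := exists_nat_ge ((M + ℓ) / ℓ)
  rw [div_le_iff₀ hℓ] at hZ
  set N : Finset (ℤ × ℤ) := Finset.Icc (-(Z : ℤ)) Z ×ˢ Finset.Icc (-(Z : ℤ)) Z with hN
  have hev : ∀ᶠ ρ in 𝓝[>] (0 : ℝ), ∀ n ∈ N,
      volume (WW (region S) f V ρ ∩ KK L c (n.1 * ℓ) (n.2 * ℓ) ρ) =
        ENNReal.ofReal (m n * ρ ^ 2) :=
    (Filter.eventually_all_finset N).2 fun n _ => (hm n).2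
  have hsm : ∀ᶠ ρ in 𝓝[>] (0 : ℝ), ρ ∈ Ioo 0 (ℓ / 2) := Ioo_mem_nhdsGT (by positivity)
  obtain ⟨ρ, hρ, hρ0, hρ1⟩ := (hev.and hsm).exists
  have harea := hF.area_vertex hℓ hT hnull hV hρ0 hρ1.le
  -- decomposition
  have hcov : WW (region S) f V ρ =
      ⋃ n ∈ N, (WW (region S) f V ρ ∩ KK L c (n.1 * ℓ) (n.2 * ℓ) ρ) := by
    apply Set.Subset.antisymm
    · intro z hz
      obtain ⟨n0, n1, hn⟩ := hF.near_lattice hℓ hT hV hz
      refine mem_biUnion (x := (n0, n1)) ?_ ⟨hz, hn⟩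
      have key : ∀ (n : ℤ) (t : ℝ), |t| ≤ M → |t - n * ℓ| < ρ → n ∈ Finset.Icc (-(Z : ℤ)) Z := by
        intro n t h1 h2
        have c1 := abs_le.1 h1
        have c2 := abs_lt.1 h2
        rw [Finset.mem_Icc]
        have h3 : (n : ℝ) * ℓ ≤ Z * ℓ := by linarith
        have h4 : -(Z : ℝ) * ℓ ≤ n * ℓ := by linarith
        have h5 : (n : ℝ) ≤ Z := le_of_mul_le_mul_right h3 hℓ
        have h6 : -(Z : ℝ) ≤ n := le_of_mul_le_mul_right h4 hℓ
        constructor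
        · exact_mod_cast h6
        · exact_mod_cast h5
      show (n0, n1) ∈ N
      rw [hN, Finset.mem_product]
      exact ⟨key n0 _ (hM z hz.1 0) hn.1, key n1 _ (hM z hz.1 1) hn.2⟩
    · apply iUnion₂_subset
      intro n _ z hz
      exact hz.1
  have hdisj : ∀ n ∈ N, ∀ n' ∈ N, n ≠ n' →
      Disjoint (WW (region S) f V ρ ∩ KK L c (n.1 * ℓ) (n.2 * ℓ) ρ)
        (WW (region S) f V ρ ∩ KK L c (n'.1 * ℓ) (n'.2 * ℓ) ρ) := by
    intro n _ n' _ hne
    rw [Set.disjoint_left]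
    rintro z ⟨_, h1, h2⟩ ⟨_, h3, h4⟩
    apply hne
    have key : ∀ (a b : ℤ) (t : ℝ), |t - a * ℓ| < ρ → |t - b * ℓ| < ρ → a = b := by
      intro a b t g1 g2
      have c1 := abs_lt.1 g1
      have c2 := abs_lt.1 g2
      have h5 : (a : ℝ) * ℓ < (b + 1) * ℓ := by linarith
      have h6 : (b : ℝ) * ℓ < (a + 1) * ℓ := by linarith
      have h7 : (a : ℝ) < b + 1 := lt_of_mul_lt_mul_right h5 hℓ.le
      have h8 : (b : ℝ) < a + 1 := lt_of_mul_lt_mul_right h6 hℓ.le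
      have h7' : a < b + 1 := by exact_mod_cast h7
      have h8' : b < a + 1 := by exact_mod_cast h8
      omega
    ext
    · exact key _ _ _ h1 h3
    · exact key _ _ _ h2 h4
  have hmeas : ∀ n ∈ N, MeasurableSet
      (WW (region S) f V ρ ∩ KK L c (n.1 * ℓ) (n.2 * ℓ) ρ) :=
    fun n _ => (WW_measurable hF (isClosed_region S) ρ).inter isOpen_KK.measurableSet
  have hsum := measure_biUnion_finset (μ := volume) hdisj hmeas
  rw [← hcov, harea, Finset.sum_congr rfl hρ,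
    ← ENNReal.ofReal_sum_of_nonneg (fun n _ => by positivity), ← Finset.sum_mul] at hsum
  have h3 : (3 : ℝ) * ρ ^ 2 = (∑ n ∈ N, (m n : ℝ)) * ρ ^ 2 := by
    have h := congrArg ENNReal.toReal hsum
    rw [ENNReal.toReal_ofReal (by positivity), ENNReal.toReal_ofReal (by positivity)] at h
    exact h
  have h4 : (3 : ℝ) = ∑ n ∈ N, (m n : ℝ) := mul_right_cancel₀ (by positivity) h3
  have h5 : 3 = ∑ n ∈ N, m n := by
    have : ((3 : ℕ) : ℝ) = ((∑ n ∈ N, m n : ℕ) : ℝ) := by push_cast; exact h4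
    exact_mod_cast this
  have h6 : Even (∑ n ∈ N, m n) := Finset.even_sum _ fun n _ => (hm n).1
  rw [← h5] at h6
  exact absurd h6 (by decide)

end Pool.Agent.Lib.MP_1e8db4_co
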