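import Mathlib.Analysis.InnerProductSpace.PiL2
import Mathlib.Topology.EMetricSpace.BoundedVariation

/-!
Polyominoes, foldings to the surface of a cube, and regular rep-cubes.
-/

set_option autoImplicit false

namespace Pool.Agent.Lib.MP_1e8db4_co

open Set Metric
open scoped ENNReal

/-- the Euclidean plane -/
abbrev E2 : Type := EuclideanSpace ℝ (Fin 2)

/-- Euclidean space -/
abbrev E3 : Type := EuclideanSpace ℝ (Fin 3)

/-- the closed unit square of the integer lattice with lower left corner `c` -/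
def cell (c : ℤ × ℤ) : Set E2 :=
  {x | (c.1 : ℝ) ≤ x 0 ∧ x 0 ≤ c.1 + 1 ∧ (c.2 : ℝ) ≤ x 1 ∧ x 1 ≤ c.2 + 1}

/-- the union of the closed unit squares with lower left corners in `S` -/
def region (S : Finset (ℤ × ℤ)) : Set E2 := ⋃ c ∈ S, cell c

/-- a (generalised) polyomino: the interior of the union of the squares is nonempty and
connected -/
def IsPolyomino (S : Finset (ℤ × ℤ)) : Prop := IsConnected (interior (region S))

/-- the surface of the cube `[0, ℓ]^3` -/
def cubeSurface (ℓ : ℝ) : Set E3 :=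
  {q | (∀ i, 0 ≤ q i ∧ q i ≤ ℓ) ∧ ∃ i, q i = 0 ∨ q i = ℓ}

/-- the intrinsic (path) metric of a subset of Euclidean space: the infimum of the lengths of the
paths in the subset between two points -/
noncomputable def pathDist (X : Set E3) (p q : E3) : ℝ≥0∞ :=
  ⨅ γ ∈ {γ : ℝ → E3 | ContinuousOn γ (Icc 0 1) ∧ MapsTo γ (Icc 0 1) X ∧ γ 0 = p ∧ γ 1 = q},
    eVariationOn γ (Icc 0 1)

/-- the plane set `P` folds to the surface of a cube with edge length `ℓ` -/
def FoldsToCube (P : Set E2) (ℓ : ℝ) : Prop :=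
  ∃ f : E2 → E3, ContinuousOn f P ∧ f '' P = cubeSurface ℓ ∧
    (∀ x ∈ interior P, ∀ y ∈ P, f x = f y → x = y) ∧
    ∀ x ∈ interior P, ∃ r > 0, ball x r ⊆ P ∧
      ∀ y ∈ ball x r, ∀ z ∈ ball x r, pathDist (cubeSurface ℓ) (f y) (f z) = edist y z

/-- `S` is a net of a cube -/
def IsCubeNet (S : Finset (ℤ × ℤ)) : Prop := ∃ ℓ : ℝ, 0 < ℓ ∧ FoldsToCube (region S) ℓ

/-- `S` is a regular rep-cube of order `k` -/
def IsRegularRepCube (k : ℕ) (S : Finset (ℤ × ℤ)) : Prop :=
  IsPolyomino S ∧ IsCubeNet S ∧ ∃ T : Fin k → Finset (ℤ × ℤ),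
    (∀ i, IsPolyomino (T i) ∧ IsCubeNet (T i)) ∧ (∀ i j, i ≠ j → Disjoint (T i) (T j)) ∧
    S = Finset.univ.biUnion T ∧ ∀ i j, (T i).card = (T j).card

end Pool.Agent.Lib.MP_1e8db4_co
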