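import Pool.Agent.Lib.MP_1e8db4_co.Corner
import Mathlib.NumberTheory.SumTwoSquares

/-!
The order of a regular rep-cube is a sum of two squares.
-/

set_option autoImplicit false

namespace Pool.Agent.Lib.MP_1e8db4_co

open Set Metric MeasureTheory
open scoped ENNReal NNReal Real

variable {ℓ : ℝ} {f : E2 → E3} {L : E2 ≃ₗᵢ[ℝ] E2} {c : E2} {S : Finset (ℤ × ℤ)}

theorem vertex_developed (hℓ : ℓ ≠ 0) {q : E3} (hV : IsVertex ℓ q) {p : E2}
    (h : GG ℓ q = HH ℓ p) : p 0 ∈ mulSet ℓ ∧ p 1 ∈ mulSet ℓ := by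
  unfold GG HH at h
  rw [cs_side hℓ (hV 0), cs_side hℓ (hV 1), cs_side hℓ (hV 2)] at h
  have h1 := congrArg Prod.fst h
  have h2 := congrArg Prod.snd h
  simp only at h1 h2
  rcases pair_eq (a := cs ℓ (p 0)) (b := cs ℓ (p 1)) (a' := 1) (b' := 1) (by linarith)
    (by linarith) with ⟨h3, h4⟩ | ⟨h3, h4⟩
  · exact ⟨cs_one hℓ h3, cs_one hℓ h4⟩
  · exact ⟨cs_one hℓ h3, cs_one hℓ h4⟩

/-- **Main result on a single folding.** -/
theorem net_facts (hℓ : 0 < ℓ) (hS : IsPolyomino S) (hfold : FoldsToCube (region S) ℓ) :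
    (S.card : ℝ) = 6 * ℓ ^ 2 ∧ ∃ p q u v : ℤ, 0 < p ^ 2 + q ^ 2 ∧ 0 < u ^ 2 + v ^ 2 ∧
      ((p : ℝ) ^ 2 + q ^ 2) = ℓ ^ 2 * (u ^ 2 + v ^ 2) := by
  obtain ⟨f, hF⟩ := foldsToCube_iff.1 hfold
  obtain ⟨L, c, hT⟩ := hF.develop hℓ hS (region_sub_closure S)
  have hnull : volume (region S \ interior (region S)) = 0 :=
    measure_mono_null (region_sdiff_sub S) (volume_grid intSet_countable)
  constructor
  · have h := hF.total_area hℓ hT hnull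
    rw [volume_region] at h
    have h2 := congrArg ENNReal.toReal h
    rw [ENNReal.toReal_ofReal (by positivity)] at h2
    simpa using h2
  · set V : E3 := WithLp.toLp 2 (fun _ => (0 : ℝ)) with hV
    set V' : E3 := WithLp.toLp 2 (fun _ => ℓ) with hV'
    have hv : IsVertex ℓ V := fun i => Or.inl rfl
    have hv' : IsVertex ℓ V' := fun i => Or.inr rfl
    obtain ⟨x, hxP, hxV, ⟨a0, ha0⟩, ⟨a1, ha1⟩⟩ := hF.lattice_vertex hℓ hT hv
    obtain ⟨y, hyP, hyV, ⟨b0, hb0⟩, ⟨b1, hb1⟩⟩ := hF.lattice_vertex hℓ hT hv'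
    simp only at ha0 ha1 hb0 hb1
    have hxy : x ≠ y := by
      rintro rfl
      rw [hxV] at hyV
      have h0 : V 0 = V' 0 := by rw [hyV]
      have h1 : V 0 = 0 := rfl
      have h2 : V' 0 = ℓ := rfl
      rw [h1, h2] at h0
      exact hℓ.ne h0
    have hgx := hT x hxP
    rw [hxV] at hgx
    have hgy := hT y hyP
    rw [hyV] at hgy
    obtain ⟨⟨s0, hs0⟩, ⟨s1, hs1⟩⟩ := vertex_developed hℓ.ne' hv hgx
    obtain ⟨⟨t0, ht0⟩, ⟨t1, ht1⟩⟩ := vertex_developed hℓ.ne' hv' hgy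
    simp only at hs0 hs1 ht0 ht1
    have hd : dist (L x + c) (L y + c) = dist x y := by
      rw [dist_add_right, L.dist_map]
    have hd1 := dist2 x y
    have hd2 := dist2 (L x + c) (L y + c)
    rw [hd, ← hs0, ← hs1, ← ht0, ← ht1] at hd2
    rw [← ha0, ← ha1, ← hb0, ← hb1] at hd1
    have hpos : 0 < dist x y ^ 2 := by
      have := dist_pos.2 hxy
      positivity
    refine ⟨a0 - b0, a1 - b1, s0 - t0, s1 - t1, ?_, ?_, ?_⟩
    · rw [hd1] at hpos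
      have h2 : (0 : ℝ) < (((a0 - b0) ^ 2 + (a1 - b1) ^ 2 : ℤ) : ℝ) := by
        push_cast
        exact hpos
      exact Int.cast_pos.1 h2
    · rw [hd2] at hpos
      have e : ((s0 : ℝ) * ℓ - t0 * ℓ) ^ 2 + ((s1 : ℝ) * ℓ - t1 * ℓ) ^ 2 =
          ℓ ^ 2 * (((s0 - t0) ^ 2 + (s1 - t1) ^ 2 : ℤ) : ℝ) := by
        push_cast; ring
      rw [e] at hpos
      have h2 := (mul_pos_iff_of_pos_left (by positivity : 0 < ℓ ^ 2)).1 hpos
      exact_mod_cast h2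
    · push_cast
      rw [hd1] at hd2
      linarith

/-- sums of two squares: quotients -/
theorem sumTwo_of_mul {k A B : ℕ} (hA0 : A ≠ 0) (hk : k ≠ 0) (hA : ∃ x y, A = x ^ 2 + y ^ 2)
    (hB : ∃ x y, B = x ^ 2 + y ^ 2) (h : k * A = B) : ∃ x y, k = x ^ 2 + y ^ 2 := by
  rw [Nat.eq_sq_add_sq_iff] at hA hB ⊢
  intro q hq h3
  have hqp : q.Prime := Nat.prime_of_mem_primeFactors hq
  have hf : Fact q.Prime := ⟨hqp⟩
  have hB0 : B ≠ 0 := by rw [← h]; exact mul_ne_zero hk hA0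
  have hqB : q ∈ B.primeFactors := by
    rw [Nat.mem_primeFactors]
    exact ⟨hqp, by rw [← h]; exact (Nat.dvd_of_mem_primeFactors hq).mul_right A, hB0⟩
  have h1 := hB q hqB h3
  rw [← h, padicValNat.mul hk hA0] at h1
  by_cases hqA : q ∈ A.primeFactors
  · have h2 := hA q hqA h3
    rw [Nat.even_add] at h1
    exact h1.2 h2
  · have h2 : padicValNat q A = 0 := by
      apply padicValNat.eq_zero_of_not_dvd
      intro hd
      exact hqA (Nat.mem_primeFactors.2 ⟨hqp, hd, hA0⟩)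
    rwa [h2, add_zero] at h1

theorem sumTwo_mul {A B : ℕ} (hA : ∃ x y, A = x ^ 2 + y ^ 2) (hB : ∃ x y, B = x ^ 2 + y ^ 2) :
    ∃ x y, A * B = x ^ 2 + y ^ 2 := by
  obtain ⟨a, b, hab⟩ := hA
  obtain ⟨u, v, huv⟩ := hB
  exact Nat.sq_add_sq_mul hab huv

theorem order_sum_two_squares {k : ℕ} (hk : 0 < k) (h : IsRegularRepCube k S) :
    ∃ a b : ℕ, k = a ^ 2 + b ^ 2 := by
  obtain ⟨hS, ⟨M, hM, hfoldM⟩, T, hT, hdisj, hunion, hcard⟩ := h
  set i0 : Fin k := ⟨0, hk⟩ with hi0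
  obtain ⟨hTpoly, ⟨m, hm, hfoldm⟩⟩ := hT i0
  obtain ⟨hA1, p, q, u, v, hpq, huv, h1⟩ := net_facts hM hS hfoldM
  obtain ⟨hA2, p', q', u', v', hpq', huv', h2⟩ := net_facts hm hTpoly hfoldm
  have hScard : S.card = k * (T i0).card := by
    rw [hunion, Finset.card_biUnion (fun i _ j _ hij => hdisj i j hij),
      Finset.sum_congr rfl (fun i _ => hcard i i0)]
    simp
  have hareas : M ^ 2 = k * m ^ 2 := by
    have : (S.card : ℝ) = k * (T i0).card := by exact_mod_cast hScard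
    rw [hA1, hA2] at this
    linarith
  have key : (k : ℝ) * (((p' : ℝ) ^ 2 + q' ^ 2) * (u ^ 2 + v ^ 2)) =
      ((p : ℝ) ^ 2 + q ^ 2) * (u' ^ 2 + v' ^ 2) := by
    rw [h1, h2, hareas]
    ring
  have keyZ : (k : ℤ) * ((p' ^ 2 + q' ^ 2) * (u ^ 2 + v ^ 2)) =
      (p ^ 2 + q ^ 2) * (u' ^ 2 + v' ^ 2) := by exact_mod_cast key
  have hnat : ∀ a b : ℤ, (((a.natAbs ^ 2 + b.natAbs ^ 2 : ℕ)) : ℤ) = a ^ 2 + b ^ 2 := by
    intro a b
    push_cast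
    rw [sq_abs, sq_abs]
  have keyN : k * ((p'.natAbs ^ 2 + q'.natAbs ^ 2) * (u.natAbs ^ 2 + v.natAbs ^ 2)) =
      (p.natAbs ^ 2 + q.natAbs ^ 2) * (u'.natAbs ^ 2 + v'.natAbs ^ 2) := by
    have : ((k * ((p'.natAbs ^ 2 + q'.natAbs ^ 2) * (u.natAbs ^ 2 + v.natAbs ^ 2)) : ℕ) : ℤ) =
      (((p.natAbs ^ 2 + q.natAbs ^ 2) * (u'.natAbs ^ 2 + v'.natAbs ^ 2) : ℕ) : ℤ) := by
      rw [Nat.cast_mul, Nat.cast_mul, Nat.cast_mul, hnat, hnat, hnat, hnat]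
      exact keyZ
    exact_mod_cast this
  have hne : ∀ a b : ℤ, 0 < a ^ 2 + b ^ 2 → a.natAbs ^ 2 + b.natAbs ^ 2 ≠ 0 := by
    intro a b hab h0
    have := hnat a b
    rw [h0] at this
    simp at this
    omega
  exact sumTwo_of_mul (mul_ne_zero (hne _ _ hpq') (hne _ _ huv)) hk.ne'
    (sumTwo_mul ⟨_, _, rfl⟩ ⟨_, _, rfl⟩) (sumTwo_mul ⟨_, _, rfl⟩ ⟨_, _, rfl⟩) keyN

end Pool.Agent.Lib.MP_1e8db4_co
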