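import Pool.Agent.Lib.MP_1e8db4_co.LocalForm
import Mathlib.Analysis.Analytic.Uniqueness
import Mathlib.Analysis.Normed.Module.Connected
import Mathlib.Analysis.Normed.Module.Ball.Homeomorph
import Mathlib.Analysis.SpecialFunctions.Trigonometric.Deriv
import Mathlib.Analysis.Calculus.ContDiff.Operations
import Mathlib.Analysis.Calculus.ContDiff.FTaylorSeries
import Mathlib.Analysis.SpecialFunctions.Trigonometric.Deriv

/-!
The developing map of a folding is defined on the whole polygon.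
-/

set_option autoImplicit false

namespace Pool.Agent.Lib.MP_1e8db4_co

open Set Metric Filter Topology
open scoped ENNReal NNReal Real ContDiff

variable {ℓ : ℝ} {P : Set E2} {f : E2 → E3}

theorem coord_contDiff (L : E2 ≃ₗᵢ[ℝ] E2) (c : E2) (m : Fin 2) :
    ContDiff ℝ ω (fun y : E2 => cs ℓ ((L y + c) m)) := by
  have h2 : ContDiff ℝ ω (fun y : E2 => L y + c) := L.contDiff.add contDiff_const
  have h1 : ContDiff ℝ ω (fun y : E2 => (L y + c) m) :=
    (EuclideanSpace.proj (𝕜 := ℝ) m).contDiff.comp h2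
  exact Real.contDiff_cos.comp ((contDiff_const.mul h1).div_const ℓ)

theorem HH_contDiff (L : E2 ≃ₗᵢ[ℝ] E2) (c : E2) :
    ContDiff ℝ ω (fun y : E2 => HH ℓ (L y + c)) := by
  have h0 := coord_contDiff (ℓ := ℓ) L c 0
  have h1 := coord_contDiff (ℓ := ℓ) L c 1
  exact ((contDiff_const.add h0).add h1).prodMk ((h0.add h1).add (h0.mul h1))

theorem HH_analytic (L : E2 ≃ₗᵢ[ℝ] E2) (c : E2) :
    AnalyticOnNhd ℝ (fun y : E2 => HH ℓ (L y + c)) univ := by
  rw [← contDiff_omega_iff_analyticOnNhd]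
  exact HH_contDiff L c

theorem HH_continuous (L : E2 ≃ₗᵢ[ℝ] E2) (c : E2) :
    Continuous (fun y : E2 => HH ℓ (L y + c)) := (HH_contDiff L c).continuous

theorem GG_continuous : Continuous (GG ℓ) := by
  have h : ∀ m : Fin 3, Continuous (fun q : E3 => cs ℓ (q m)) := by
    intro m
    have h1 : Continuous (fun q : E3 => q m) := (EuclideanSpace.proj (𝕜 := ℝ) m).continuous
    exact Real.continuous_cos.comp ((continuous_const.mul h1).div_const ℓ)
  exact (((h 0).add (h 1)).add (h 2)).prodMk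
    ((((h 0).mul (h 1)).add ((h 1).mul (h 2))).add ((h 2).mul (h 0)))

/-- gluing of local forms -/
theorem glue {A : Set E2} (hA : IsPreconnected A) (hne : A.Nonempty) {g : E2 → ℝ × ℝ}
    (h : ∀ x ∈ A, ∃ r > 0, ∃ (L : E2 ≃ₗᵢ[ℝ] E2) (c : E2),
      ∀ y ∈ ball x r, g y = HH ℓ (L y + c)) :
    ∃ (L : E2 ≃ₗᵢ[ℝ] E2) (c : E2), ∀ y ∈ A, g y = HH ℓ (L y + c) := by
  choose! r hr L c hL using h
  obtain ⟨x0, hx0⟩ := hne
  refine ⟨L x0, c x0, fun y hy => ?_⟩
  have key : (fun z => HH ℓ (L x0 z + c x0)) = (fun z => HH ℓ (L y z + c y)) := by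
    refine hA.induction₂ (fun x y => (fun z => HH ℓ (L x z + c x)) =
      (fun z => HH ℓ (L y z + c y))) ?_ ?_ ?_ hx0 hy
    · intro x hx
      have hmem : ball x (r x) ∈ 𝓝 x := ball_mem_nhds x (hr x hx)
      filter_upwards [mem_nhdsWithin_of_mem_nhds hmem, self_mem_nhdsWithin] with z hz hzA
      apply (HH_analytic (L x) (c x)).eq_of_eventuallyEq (HH_analytic (L z) (c z)) (z₀ := z)
      have h1 : ball x (r x) ∈ 𝓝 z := isOpen_ball.mem_nhds hz
      have h2 : ball z (r z) ∈ 𝓝 z := ball_mem_nhds z (hr z hzA)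
      filter_upwards [h1, h2] with w hw1 hw2
      rw [← hL x hx w hw1, ← hL z hzA w hw2]
    · intro x y z _ _ _ h1 h2
      exact h1.trans h2
    · intro x y _ _ h1
      exact h1.symm
  have h1 : HH ℓ (L x0 y + c x0) = HH ℓ (L y y + c y) := congrFun key y
  rw [h1]
  exact hL y hy y (mem_ball_self (hr y hy))

theorem punctured_ball {x : E2} {r : ℝ} (hr : 0 < r) :
    IsPreconnected (ball x r \ {x}) ∧ (ball x r \ {x}).Nonempty := by
  have hrank : 1 < Module.rank ℝ E2 := by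
    rw [← Module.finrank_eq_rank]
    simp
  have hc : IsConnected ({0}ᶜ : Set E2) := isConnected_compl_singleton_of_one_lt_rank hrank 0
  have himg : (OpenPartialHomeomorph.univBall x r) '' ({0}ᶜ : Set E2) = ball x r \ {x} := by
    have hinj : Function.Injective (OpenPartialHomeomorph.univBall x r) := by
      have h := (OpenPartialHomeomorph.univBall x r).injOn
      rw [OpenPartialHomeomorph.univBall_source] at h
      exact injOn_univ.1 h
    rw [image_compl_eq_range_sdiff_image hinj, image_singleton,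
      OpenPartialHomeomorph.univBall_apply_zero]
    congr 1
    rw [← image_univ, ← OpenPartialHomeomorph.univBall_source x r,
      OpenPartialHomeomorph.image_source_eq_target, OpenPartialHomeomorph.univBall_target x hr]
  rw [← himg]
  exact ⟨hc.isPreconnected.image _ (OpenPartialHomeomorph.continuous_univBall x r).continuousOn,
    hc.nonempty.image _⟩

theorem finite_vertex (ℓ : ℝ) : {q : E3 | IsVertex ℓ q}.Finite := by
  have h : {g : Fin 3 → ℝ | ∀ i, g i ∈ ({0, ℓ} : Set ℝ)}.Finite :=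
    Set.Finite.pi' (fun _ => by simp)
  apply (h.image (WithLp.toLp 2)).subset
  intro q hq
  exact ⟨fun i => q i, fun i => by simpa using hq i, rfl⟩

/-- local form at every interior point -/
theorem Fold.local_form' (hF : Fold P ℓ f) (hℓ : 0 < ℓ) {x : E2} (hx : x ∈ interior P) :
    ∃ r > 0, ∃ (L : E2 ≃ₗᵢ[ℝ] E2) (c : E2), ∀ y ∈ ball x r, GG ℓ (f y) = HH ℓ (L y + c) := by
  by_cases hv : IsVertex ℓ (f x)
  swap
  · obtain ⟨r, hr, L, c, -, h⟩ := hF.local_form hℓ hx hv
    exact ⟨r, hr, L, c, h⟩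
  -- vertices in the interior are isolated
  have hinj : InjOn f (interior P) := fun y hy z hz h => hF.inj y hy z (interior_subset hz) h
  have hfin : {y ∈ interior P | IsVertex ℓ (f y)}.Finite := by
    apply Set.Finite.of_finite_image (f := f)
    · apply (finite_vertex ℓ).subset
      rintro _ ⟨y, hy, rfl⟩
      exact hy.2
    · exact hinj.mono fun y hy => hy.1
  have hclosed : IsClosed ({y ∈ interior P | IsVertex ℓ (f y)} \ {x}) :=
    (hfin.subset sdiff_subset).isClosed
  have hopen : IsOpen (interior P ∩ ({y ∈ interior P | IsVertex ℓ (f y)} \ {x})ᶜ) :=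
    isOpen_interior.inter hclosed.isOpen_compl
  obtain ⟨r, hr, hball⟩ := Metric.isOpen_iff.1 hopen x ⟨hx, fun h => h.2 rfl⟩
  obtain ⟨hpre, hne⟩ := punctured_ball (x := x) hr
  obtain ⟨L, c, hLc⟩ := glue (ℓ := ℓ) (g := fun y => GG ℓ (f y)) hpre hne (by
    intro y hy
    have hyP := (hball hy.1).1
    have hyv : ¬ IsVertex ℓ (f y) := fun h => (hball hy.1).2 ⟨⟨hyP, h⟩, hy.2⟩
    obtain ⟨r, hr, L, c, -, h⟩ := hF.local_form hℓ hyP hyv
    exact ⟨r, hr, L, c, h⟩)
  refine ⟨r, hr, L, c, fun y hy => ?_⟩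
  by_cases hyx : y = x
  swap
  · exact hLc y ⟨hy, hyx⟩
  subst hyx
  have : (𝓝[≠] y).NeBot := Module.punctured_nhds_neBot ℝ E2 y
  have hcf : ContinuousAt f y := hF.cont.continuousAt (mem_interior_iff_mem_nhds.1 hx)
  have h1 : Tendsto (fun z => GG ℓ (f z)) (𝓝[≠] y) (𝓝 (GG ℓ (f y))) :=
    ((GG_continuous.continuousAt.comp hcf).tendsto).mono_left nhdsWithin_le_nhds
  have h2 : Tendsto (fun z => HH ℓ (L z + c)) (𝓝[≠] y) (𝓝 (HH ℓ (L y + c))) :=
    (HH_continuous L c).continuousAt.tendsto.mono_left nhdsWithin_le_nhds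
  refine tendsto_nhds_unique h1 (h2.congr' ?_)
  have h3 : ball y r ∈ 𝓝 y := ball_mem_nhds y hr
  filter_upwards [mem_nhdsWithin_of_mem_nhds h3, self_mem_nhdsWithin] with z hz1 hz2
  exact (hLc z ⟨hz1, hz2⟩).symm

/-- the developing map -/
theorem Fold.develop (hF : Fold P ℓ f) (hℓ : 0 < ℓ) (hconn : IsConnected (interior P))
    (hcl : P ⊆ closure (interior P)) :
    ∃ (L : E2 ≃ₗᵢ[ℝ] E2) (c : E2), ∀ y ∈ P, GG ℓ (f y) = HH ℓ (L y + c) := by
  obtain ⟨L, c, h⟩ := glue (ℓ := ℓ) (g := fun y => GG ℓ (f y)) hconn.isPreconnected hconn.nonempty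
    (fun x hx => hF.local_form' hℓ hx)
  refine ⟨L, c, fun y hy => ?_⟩
  have : (𝓝[interior P] y).NeBot := mem_closure_iff_nhdsWithin_neBot.1 (hcl hy)
  have hcf : Tendsto f (𝓝[interior P] y) (𝓝 (f y)) :=
    (hF.cont y hy).mono_left (nhdsWithin_mono y interior_subset)
  have h1 : Tendsto (fun z => GG ℓ (f z)) (𝓝[interior P] y) (𝓝 (GG ℓ (f y))) :=
    GG_continuous.continuousAt.tendsto.comp hcf
  have h2 : Tendsto (fun z => HH ℓ (L z + c)) (𝓝[interior P] y) (𝓝 (HH ℓ (L y + c))) :=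
    (HH_continuous L c).continuousAt.tendsto.mono_left nhdsWithin_le_nhds
  refine tendsto_nhds_unique h1 (h2.congr' ?_)
  filter_upwards [self_mem_nhdsWithin] with z hz
  exact (h z hz).symm

end Pool.Agent.Lib.MP_1e8db4_co
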