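import Pool.Agent.Lib.MP_1e8db4_co.Near
import Mathlib.Analysis.SpecialFunctions.Trigonometric.Basic

/-!
The local form of a folding.
-/

set_option autoImplicit false

namespace Pool.Agent.Lib.MP_1e8db4_co

open Set Metric
open scoped ENNReal NNReal Real

/-- the data of a folding -/
structure Fold (P : Set E2) (ℓ : ℝ) (f : E2 → E3) : Prop where
  cont : ContinuousOn f P
  surj : f '' P = cubeSurface ℓ
  inj : ∀ x ∈ interior P, ∀ y ∈ P, f x = f y → x = y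
  isom : ∀ x ∈ interior P, ∃ r > 0, ball x r ⊆ P ∧
      ∀ y ∈ ball x r, ∀ z ∈ ball x r, pathDist (cubeSurface ℓ) (f y) (f z) = edist y z

theorem foldsToCube_iff {P : Set E2} {ℓ : ℝ} : FoldsToCube P ℓ ↔ ∃ f, Fold P ℓ f := by
  constructor
  · rintro ⟨f, h1, h2, h3, h4⟩
    exact ⟨f, h1, h2, h3, h4⟩
  · rintro ⟨f, h1, h2, h3, h4⟩
    exact ⟨f, h1, h2, h3, h4⟩

/-- the cosine with period `ℓ` -/
noncomputable def cs (ℓ t : ℝ) : ℝ := Real.cos (2 * π * t / ℓ)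

/-- the symmetric functions of the cosines of the coordinates of a point of space -/
noncomputable def GG (ℓ : ℝ) (q : E3) : ℝ × ℝ :=
  (cs ℓ (q 0) + cs ℓ (q 1) + cs ℓ (q 2),
    cs ℓ (q 0) * cs ℓ (q 1) + cs ℓ (q 1) * cs ℓ (q 2) + cs ℓ (q 2) * cs ℓ (q 0))

/-- the symmetric functions of the cosines of the coordinates of a point of the plane and `1` -/
noncomputable def HH (ℓ : ℝ) (p : E2) : ℝ × ℝ :=
  (1 + cs ℓ (p 0) + cs ℓ (p 1), cs ℓ (p 0) + cs ℓ (p 1) + cs ℓ (p 0) * cs ℓ (p 1))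

variable {ℓ a b : ℝ} {i j k : Fin 3} {P : Set E2} {f : E2 → E3}

theorem GG_perm (hij : i ≠ j) (hik : i ≠ k) (hjk : j ≠ k) (q : E3) :
    GG ℓ q = (cs ℓ (q i) + cs ℓ (q j) + cs ℓ (q k),
      cs ℓ (q i) * cs ℓ (q j) + cs ℓ (q j) * cs ℓ (q k) + cs ℓ (q k) * cs ℓ (q i)) := by
  unfold GG
  fin_cases i <;> fin_cases j <;> fin_cases k <;> simp at hij hik hjk ⊢ <;>
    constructor <;> ring

theorem cs_neg (t : ℝ) : cs ℓ (-t) = cs ℓ t := by
  unfold cs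
  rw [← Real.cos_neg]
  congr 1
  ring

@[simp] theorem cs_zero : cs ℓ 0 = 1 := by simp [cs]

theorem cs_add_int (hℓ : ℓ ≠ 0) (t : ℝ) (n : ℤ) : cs ℓ (t + n * ℓ) = cs ℓ t := by
  unfold cs
  have : 2 * π * (t + n * ℓ) / ℓ = 2 * π * t / ℓ + n * (2 * π) := by
    field_simp
  rw [this, Real.cos_add_int_mul_two_pi]

theorem cs_side (hℓ : ℓ ≠ 0) (ha : a = 0 ∨ a = ℓ) : cs ℓ a = 1 := by
  rcases ha with rfl | rfl
  · exact cs_zero
  · have := cs_add_int hℓ 0 1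
    simpa using this

theorem cs_abs_sub (hℓ : ℓ ≠ 0) (ha : a = 0 ∨ a = ℓ) (t : ℝ) : cs ℓ |t - a| = cs ℓ t := by
  have h1 : cs ℓ |t - a| = cs ℓ (t - a) := by
    rcases abs_choice (t - a) with h | h
    · rw [h]
    · rw [h, cs_neg]
  rw [h1]
  rcases ha with rfl | rfl
  · rw [sub_zero]
  · have := cs_add_int hℓ t (-1)
    rw [← this]
    congr 1
    push_cast
    ring

theorem GG_unf (hij : i ≠ j) (hik : i ≠ k) (hjk : j ≠ k) (hℓ : ℓ ≠ 0) (ha : a = 0 ∨ a = ℓ)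
    (hb : b = 0 ∨ b = ℓ) {q : E3} (hs : q i = a ∨ q j = b) :
    HH ℓ (unf i j k a b q) = GG ℓ q := by
  rw [GG_perm hij hik hjk]
  unfold HH
  rcases hs with h | h
  · have e1 : cs ℓ (unf i j k a b q 0) = cs ℓ (q j) := by
      rw [unf_coord0, h, sub_self, abs_zero, zero_sub, cs_neg, cs_abs_sub hℓ hb]
    have e2 : unf i j k a b q 1 = q k := rfl
    rw [e1, e2, h, cs_side hℓ ha]
    ext <;> simp only <;> ring
  · have e1 : cs ℓ (unf i j k a b q 0) = cs ℓ (q i) := by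
      rw [unf_coord0, h, sub_self, abs_zero, sub_zero, cs_abs_sub hℓ ha]
    have e2 : unf i j k a b q 1 = q k := rfl
    rw [e1, e2, h, cs_side hℓ hb]
    ext <;> simp only <;> ring

/-- projection of a face -/
noncomputable def pr (i k : Fin 3) (q : E3) : E2 := mk2 (q i) (q k)

theorem GG_pr (hij : i ≠ j) (hik : i ≠ k) (hjk : j ≠ k) (hℓ : ℓ ≠ 0)
    (hb : b = 0 ∨ b = ℓ) {q : E3} (hs : q j = b) : HH ℓ (pr i k q) = GG ℓ q := by
  rw [GG_perm hij hik hjk, hs, cs_side hℓ hb]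
  unfold HH
  have e1 : pr i k q 0 = q i := rfl
  have e2 : pr i k q 1 = q k := rfl
  rw [e1, e2]
  ext <;> simp only <;> ring

theorem pr_dist (hij : i ≠ j) (hik : i ≠ k) (hjk : j ≠ k) {q q' : E3} (h : q j = b)
    (h' : q' j = b) : dist (pr i k q) (pr i k q') = dist q q' := by
  have key : dist (pr i k q) (pr i k q') ^ 2 = dist q q' ^ 2 := by
    rw [dist2, dist3 hij hik hjk, h, h']
    simp only [pr, mk2_zero, mk2_one]
    ring
  exact (sq_eq_sq₀ dist_nonneg dist_nonneg).1 key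

theorem Fold.mem (hF : Fold P ℓ f) {x : E2} (hx : x ∈ P) : f x ∈ cubeSurface ℓ := by
  rw [← hF.surj]
  exact mem_image_of_mem f hx

theorem Fold.near (hF : Fold P ℓ f) {x : E2} (hx : x ∈ interior P) {δ : ℝ} (hδ : 0 < δ) :
    ∃ r > 0, ball x r ⊆ P ∧ (∀ y ∈ ball x r, dist (f y) (f x) < δ) ∧
      ∀ y ∈ ball x r, ∀ z ∈ ball x r, pathDist (cubeSurface ℓ) (f y) (f z) = edist y z := by
  obtain ⟨r, hr, hsub, hiso⟩ := hF.isom x hx
  have hc : ContinuousAt f x := hF.cont.continuousAt (mem_interior_iff_mem_nhds.1 hx)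
  obtain ⟨s, hs, hball⟩ := Metric.continuousAt_iff.1 hc δ hδ
  refine ⟨min r s, lt_min hr hs, ?_, ?_, ?_⟩
  · exact (ball_subset_ball (min_le_left _ _)).trans hsub
  · intro y hy
    exact hball ((mem_ball.1 hy).trans_le (min_le_right _ _))
  · intro y hy z hz
    exact hiso y (ball_subset_ball (min_le_left _ _) hy) z (ball_subset_ball (min_le_left _ _) hz)

/-- local form at a point mapped to the interior of an edge -/
theorem Fold.edge_local (hF : Fold P ℓ f) (hℓ : 0 < ℓ) {x : E2} (hx : x ∈ interior P)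
    (hij : i ≠ j) (hik : i ≠ k) (hjk : j ≠ k) (ha : a = 0 ∨ a = ℓ) (hb : b = 0 ∨ b = ℓ)
    (hi : f x i = a) (hj : f x j = b) (hk0 : 0 < f x k) (hk1 : f x k < ℓ) :
    ∃ r > 0, ∃ (L : E2 ≃ₗᵢ[ℝ] E2) (c : E2), ball x r ⊆ P ∧
      ∀ y ∈ ball x r, GG ℓ (f y) = HH ℓ (L y + c) := by
  obtain ⟨δ, hδ, hch⟩ :=
    edge_chart hij hik hjk hℓ ha hb (hF.mem (interior_subset hx)) hi hj hk0 hk1
  obtain ⟨r, hr, hsub, hnear, hiso⟩ := hF.near hx hδ
  obtain ⟨L, c, hL⟩ := extend_ball (φ := fun y => unf i j k a b (f y)) (x := x) hr (by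
    intro y hy z hz
    have h1 := (hch (f y) (hF.mem (hsub hy)) (f z) (hF.mem (hsub hz)) (hnear y hy)
      (hnear z hz)).2
    rw [hiso y hy z hz] at h1
    have h2 := congrArg ENNReal.toReal h1
    rw [edist_dist, edist_dist, ENNReal.toReal_ofReal dist_nonneg,
      ENNReal.toReal_ofReal dist_nonneg] at h2
    exact h2.symm)
  refine ⟨r, hr, L, c, hsub, fun y hy => ?_⟩
  have h1 := (hch (f y) (hF.mem (hsub hy)) (f y) (hF.mem (hsub hy)) (hnear y hy)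
      (hnear y hy)).1
  have h2 : unf i j k a b (f y) = L y + c := hL y hy
  rw [← h2, GG_unf hij hik hjk hℓ.ne' ha hb h1]

/-- local form at a point mapped to the interior of a face -/
theorem Fold.face_local (hF : Fold P ℓ f) {x : E2} (hx : x ∈ interior P)
    (hij : i ≠ j) (hik : i ≠ k) (hjk : j ≠ k) (hb : b = 0 ∨ b = ℓ) (hj : f x j = b)
    (hi0 : 0 < f x i) (hi1 : f x i < ℓ) (hk0 : 0 < f x k) (hk1 : f x k < ℓ) :
    ∃ r > 0, ∃ (L : E2 ≃ₗᵢ[ℝ] E2) (c : E2), ball x r ⊆ P ∧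
      ∀ y ∈ ball x r, (f y j = b ∧ 0 < f y i ∧ f y i < ℓ ∧ 0 < f y k ∧ f y k < ℓ) ∧
        pr i k (f y) = L y + c := by
  obtain ⟨δ, hδ, hch⟩ := face_chart (b := b) hij hik hjk hb hj hi0 hi1 hk0 hk1
  obtain ⟨r, hr, hsub, hnear, hiso⟩ := hF.near hx hδ
  obtain ⟨L, c, hL⟩ := extend_ball (φ := fun y => pr i k (f y)) (x := x) hr (by
    intro y hy z hz
    obtain ⟨h0, h1⟩ := hch (f y) (hF.mem (hsub hy)) (f z) (hF.mem (hsub hz)) (hnear y hy)
      (hnear z hz)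
    have h0' := (hch (f z) (hF.mem (hsub hz)) (f z) (hF.mem (hsub hz)) (hnear z hz)
      (hnear z hz)).1
    rw [hiso y hy z hz] at h1
    have h2 := congrArg ENNReal.toReal h1
    rw [edist_dist, edist_dist, ENNReal.toReal_ofReal dist_nonneg,
      ENNReal.toReal_ofReal dist_nonneg] at h2
    rw [pr_dist hij hik hjk h0.1 h0'.1]
    exact h2.symm)
  refine ⟨r, hr, L, c, hsub, fun y hy => ⟨?_, hL y hy⟩⟩
  exact (hch (f y) (hF.mem (hsub hy)) (f y) (hF.mem (hsub hy)) (hnear y hy) (hnear y hy)).1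

/-- a vertex of the cube -/
def IsVertex (ℓ : ℝ) (q : E3) : Prop := ∀ i, q i = 0 ∨ q i = ℓ

/-- local form at a point which is not mapped to a vertex -/
theorem Fold.local_form (hF : Fold P ℓ f) (hℓ : 0 < ℓ) {x : E2} (hx : x ∈ interior P)
    (hv : ¬ IsVertex ℓ (f x)) :
    ∃ r > 0, ∃ (L : E2 ≃ₗᵢ[ℝ] E2) (c : E2), ball x r ⊆ P ∧
      ∀ y ∈ ball x r, GG ℓ (f y) = HH ℓ (L y + c) := by
  have hq := hF.mem (interior_subset hx)
  unfold IsVertex at hv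
  push Not at hv
  obtain ⟨k, hk⟩ := hv
  have hk0 : 0 < f x k := lt_of_le_of_ne (hq.1 k).1 (Ne.symm hk.1)
  have hk1 : f x k < ℓ := lt_of_le_of_ne (hq.1 k).2 hk.2
  obtain ⟨j, hj⟩ := hq.2
  have hjk : j ≠ k := by
    rintro rfl
    rcases hj with h | h
    · exact hk.1 h
    · exact hk.2 h
  obtain ⟨i, hij, hik⟩ : ∃ i : Fin 3, i ≠ j ∧ i ≠ k := by
    have : ∀ j k : Fin 3, ∃ i : Fin 3, i ≠ j ∧ i ≠ k := by decide
    exact this j k
  by_cases hi : f x i = 0 ∨ f x i = ℓ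
  · exact hF.edge_local hℓ hx hij hik hjk hi hj rfl rfl hk0 hk1
  · push Not at hi
    have hi0 : 0 < f x i := lt_of_le_of_ne (hq.1 i).1 (Ne.symm hi.1)
    have hi1 : f x i < ℓ := lt_of_le_of_ne (hq.1 i).2 hi.2
    obtain ⟨r, hr, L, c, hsub, h⟩ :=
      hF.face_local (b := f x j) hx hij hik hjk hj rfl hi0 hi1 hk0 hk1
    refine ⟨r, hr, L, c, hsub, fun y hy => ?_⟩
    obtain ⟨h1, h2⟩ := h y hy
    rw [← h2, GG_pr hij hik hjk hℓ.ne' hj h1.1]

end Pool.Agent.Lib.MP_1e8db4_co
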