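import Pool.Agent.Lib.MP_1e8db4_co.Total

/-!
The local structure of a union of unit squares away from the lattice points.
-/

set_option autoImplicit false

namespace Pool.Agent.Lib.MP_1e8db4_co

open Set Metric MeasureTheory
open scoped ENNReal NNReal Real

/-- coordinates of a pair -/
def co (c : ℤ × ℤ) (m : Fin 2) : ℤ := if m = 0 then c.1 else c.2

theorem mem_cell {c : ℤ × ℤ} {x : E2} :
    x ∈ cell c ↔ ∀ m, (co c m : ℝ) ≤ x m ∧ x m ≤ co c m + 1 := by
  rw [Fin.forall_fin_two]
  simp only [cell, co]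
  simp only [if_true, Fin.isValue, one_ne_zero, if_false, mem_setOf_eq]
  tauto

theorem local_region_aux {S : Finset (ℤ × ℤ)} {x : E2} (hx : x ∈ region S) {m m' : Fin 2}
    (hmm : ∀ r : Fin 2, r = m ∨ r = m') (hm' : x m' ∉ intSet) {n : ℤ} (hn : x m = n) :
    (∃ ε > 0, ball x ε ⊆ region S) ∨
    ∃ ε > 0, ∃ (r : Fin 2) (s : ℝ), (s = 1 ∨ s = -1) ∧
      ∀ z ∈ ball x ε, z ∈ region S ↔ 0 ≤ s * (z r - x r) := by
  set a : ℤ := ⌊x m'⌋ with ha
  have ha0 : (a : ℝ) < x m' := floor_lt_of_not hm'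
  have ha1 : x m' < a + 1 := Int.lt_floor_add_one _
  set ε : ℝ := min (min (x m' - a) (a + 1 - x m')) 1 with hε
  have hε0 : 0 < ε := lt_min (lt_min (by linarith) (by linarith)) one_pos
  have e1 : ε ≤ x m' - a := (min_le_left _ _).trans (min_le_left _ _)
  have e2 : ε ≤ a + 1 - x m' := (min_le_left _ _).trans (min_le_right _ _)
  have e3 : ε ≤ 1 := min_le_right _ _
  set Ap : Prop := ∃ c ∈ S, co c m' = a ∧ co c m = n with hAp
  set Am : Prop := ∃ c ∈ S, co c m' = a ∧ co c m = n - 1 with hAm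
  have key : ∀ z ∈ ball x ε, z ∈ region S ↔ ((Ap ∧ (n : ℝ) ≤ z m) ∨ (Am ∧ z m ≤ n)) := by
    intro z hz
    have c1 := abs_lt.1 ((coord_le2 z x m').trans_lt hz)
    have c2 := abs_lt.1 ((coord_le2 z x m).trans_lt hz)
    rw [hn] at c2
    constructor
    · intro h
      obtain ⟨c, hc, hzc⟩ := mem_iUnion₂.1 h
      rw [mem_cell] at hzc
      have h1 := hzc m'
      have h2 := hzc m
      have k1 : co c m' = a := by
        have i1 : (co c m' : ℝ) < a + 1 := by linarith
        have i2 : (a : ℝ) < co c m' + 1 := by linarith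
        have i1' : co c m' < a + 1 := by exact_mod_cast i1
        have i2' : a < co c m' + 1 := by exact_mod_cast i2
        omega
      have k2 : co c m = n ∨ co c m = n - 1 := by
        have i1 : (co c m : ℝ) < n + 1 := by linarith
        have i2 : (n : ℝ) - 1 < co c m + 1 := by linarith
        have i1' : co c m < n + 1 := by exact_mod_cast i1
        have i2' : n - 1 < co c m + 1 := by exact_mod_cast i2
        omega
      rcases k2 with k2 | k2
      · left
        refine ⟨⟨c, hc, k1, k2⟩, ?_⟩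
        rw [k2] at h2
        exact h2.1
      · right
        refine ⟨⟨c, hc, k1, k2⟩, ?_⟩
        rw [k2] at h2
        have := h2.2
        push_cast at this
        linarith
    · rintro (⟨⟨c, hc, k1, k2⟩, hle⟩ | ⟨⟨c, hc, k1, k2⟩, hle⟩)
      · apply mem_biUnion hc
        rw [mem_cell]
        intro r
        rcases hmm r with rfl | rfl
        · rw [k2]; exact ⟨hle, by linarith⟩
        · rw [k1]; constructor <;> linarith
      · apply mem_biUnion hc
        rw [mem_cell]
        intro r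
        rcases hmm r with rfl | rfl
        · rw [k2]; push_cast; constructor <;> linarith
        · rw [k1]; constructor <;> linarith
  have hxx := (key x (mem_ball_self hε0)).1 hx
  by_cases h1 : Ap <;> by_cases h2 : Am
  · left
    refine ⟨ε, hε0, fun z hz => (key z hz).2 ?_⟩
    rcases le_total (n : ℝ) (z m) with h | h
    · exact Or.inl ⟨h1, h⟩
    · exact Or.inr ⟨h2, h⟩
  · right
    refine ⟨ε, hε0, m, 1, Or.inl rfl, fun z hz => ?_⟩
    rw [key z hz, hn]
    simp only [h1, h2, true_and, false_and, or_false, one_mul, sub_nonneg]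
  · right
    refine ⟨ε, hε0, m, -1, Or.inr rfl, fun z hz => ?_⟩
    rw [key z hz, hn]
    simp only [h1, h2, true_and, false_and, false_or]
    constructor <;> intro h <;> linarith
  · exfalso
    rcases hxx with h | h
    · exact h1 h.1
    · exact h2 h.1

/-- local structure at a point of the region which is not a lattice point -/
theorem local_region {S : Finset (ℤ × ℤ)} {x : E2} (hx : x ∈ region S)
    (hl : ¬ (x 0 ∈ intSet ∧ x 1 ∈ intSet)) :
    (∃ ε > 0, ball x ε ⊆ region S) ∨
    ∃ ε > 0, ∃ (r : Fin 2) (s : ℝ), (s = 1 ∨ s = -1) ∧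
      ∀ z ∈ ball x ε, z ∈ region S ↔ 0 ≤ s * (z r - x r) := by
  by_cases h0 : x 0 ∈ intSet <;> by_cases h1 : x 1 ∈ intSet
  · exact absurd ⟨h0, h1⟩ hl
  · obtain ⟨n, hn⟩ := h0
    refine local_region_aux hx (m := 0) (m' := 1) ?_ h1 (n := n) hn.symm
    intro r; fin_cases r <;> simp
  · obtain ⟨n, hn⟩ := h1
    refine local_region_aux hx (m := 1) (m' := 0) ?_ h0 (n := n) hn.symm
    intro r; fin_cases r <;> simp
  · left
    obtain ⟨c, hc, h⟩ := mem_ocell hx h0 h1
    obtain ⟨ε, hε, hball⟩ := Metric.isOpen_iff.1 (isOpen_rect _ _ _ _) x h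
    exact ⟨ε, hε, hball.trans ((ocell_sub_cell c).trans (cell_sub_region hc))⟩

/-- the preimage of the square with side `2ρ` about the point `(a0, a1)` -/
def KK (L : E2 ≃ₗᵢ[ℝ] E2) (c : E2) (a0 a1 ρ : ℝ) : Set E2 :=
  {z | |(L z + c) 0 - a0| < ρ ∧ |(L z + c) 1 - a1| < ρ}

variable {L : E2 ≃ₗᵢ[ℝ] E2} {c : E2} {a0 a1 ρ : ℝ}

theorem KK_eq : KK L c a0 a1 ρ = (fun z => L z + c) ⁻¹' rect (a0 - ρ) (a0 + ρ) (a1 - ρ) (a1 + ρ) := by
  ext z
  simp only [KK, rect, mem_setOf_eq, mem_preimage, abs_lt]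
  constructor
  · rintro ⟨⟨h1, h2⟩, h3, h4⟩
    exact ⟨by linarith, by linarith, by linarith, by linarith⟩
  · rintro ⟨h1, h2, h3, h4⟩
    exact ⟨⟨by linarith, by linarith⟩, by linarith, by linarith⟩

theorem isOpen_KK : IsOpen (KK L c a0 a1 ρ) := by
  rw [KK_eq]
  exact (isOpen_rect _ _ _ _).preimage (L.continuous.add continuous_const)

theorem volume_KK (hρ : 0 < ρ) : volume (KK L c a0 a1 ρ) = ENNReal.ofReal (4 * ρ ^ 2) := by
  rw [KK_eq, (T_mp L c).measure_preimage (isOpen_rect _ _ _ _).measurableSet.nullMeasurableSet,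
    volume_rect, ← ENNReal.ofReal_mul (by linarith)]
  congr 1
  ring

theorem KK_near {x z : E2} (h0 : (L x + c) 0 = a0) (h1 : (L x + c) 1 = a1)
    (hz : z ∈ KK L c a0 a1 ρ) : dist z x < 2 * ρ := by
  have hd : dist z x = dist (L z + c) (L x + c) := by
    rw [dist_add_right, L.dist_map]
  have hρ : 0 < ρ := (abs_nonneg _).trans_lt hz.1
  obtain ⟨c1, c2⟩ := hz
  have h2 := dist2 (L z + c) (L x + c)
  rw [h0, h1, ← hd] at h2
  have h3 : ((L z + c) 0 - a0) ^ 2 < ρ ^ 2 := sq_lt_sq' (by linarith [abs_lt.1 c1]) (abs_lt.1 c1).2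
  have h4 : ((L z + c) 1 - a1) ^ 2 < ρ ^ 2 := sq_lt_sq' (by linarith [abs_lt.1 c2]) (abs_lt.1 c2).2
  have h5 : dist z x ^ 2 < (2 * ρ) ^ 2 := by nlinarith
  exact lt_of_pow_lt_pow_left₀ 2 (by positivity) h5

/-- half of a square -/
theorem volume_half {x : E2} (h0 : (L x + c) 0 = a0) (h1 : (L x + c) 1 = a1) (hρ : 0 < ρ)
    (r : Fin 2) {s : ℝ} (hs : s = 1 ∨ s = -1) :
    volume {z | z ∈ KK L c a0 a1 ρ ∧ 0 ≤ s * (z r - x r)} = ENNReal.ofReal (2 * ρ ^ 2) := by
  set A : Set E2 := {z | z ∈ KK L c a0 a1 ρ ∧ 0 ≤ s * (z r - x r)} with hA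
  set A' : Set E2 := {z | z ∈ KK L c a0 a1 ρ ∧ 0 ≤ s * (x r - z r)} with hA'
  have hcr : Continuous (fun z : E2 => z r) := continuous_coord r
  have mA : MeasurableSet A := isOpen_KK.measurableSet.inter
    (isClosed_le continuous_const (continuous_const.mul (hcr.sub continuous_const))).measurableSet
  have mA' : MeasurableSet A' := isOpen_KK.measurableSet.inter
    (isClosed_le continuous_const (continuous_const.mul (continuous_const.sub hcr))).measurableSet
  have hR : MeasurePreserving (fun z : E2 => (x + x) - z) volume volume := by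
    have h := T_mp (LinearIsometryEquiv.neg ℝ) (x + x)
    have e : (fun z : E2 => (LinearIsometryEquiv.neg ℝ : E2 ≃ₗᵢ[ℝ] E2) z + (x + x)) =
        fun z : E2 => (x + x) - z := by
      ext z
      simp only [LinearIsometryEquiv.coe_neg]
      rw [neg_add_eq_sub]
    rw [e] at h
    exact h
  have hpre : (fun z : E2 => (x + x) - z) ⁻¹' A = A' := by
    ext z
    have hco : ∀ m, (L (x + x - z) + c) m = 2 * (L x + c) m - (L z + c) m := by
      intro m
      rw [map_sub, map_add]
      simp only [PiLp.add_apply, PiLp.sub_apply]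
      ring
    simp only [hA, hA', mem_preimage, mem_setOf_eq, KK]
    rw [hco, hco, h0, h1]
    have e0 : |2 * a0 - (L z + c) 0 - a0| = |(L z + c) 0 - a0| := by
      rw [← abs_neg]; congr 1; ring
    have e1 : |2 * a1 - (L z + c) 1 - a1| = |(L z + c) 1 - a1| := by
      rw [← abs_neg]; congr 1; ring
    rw [e0, e1]
    have e2 : (x + x - z) r - x r = x r - z r := by
      simp only [PiLp.add_apply, PiLp.sub_apply]
      ring
    rw [e2]
  have hvol : volume A' = volume A := by
    rw [← hpre]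
    exact hR.measure_preimage mA.nullMeasurableSet
  have hunion : A ∪ A' = KK L c a0 a1 ρ := by
    ext z
    simp only [hA, hA', mem_union, mem_setOf_eq]
    constructor
    · rintro (h | h) <;> exact h.1
    · intro h
      rcases le_total 0 (s * (z r - x r)) with h2 | h2
      · exact Or.inl ⟨h, h2⟩
      · refine Or.inr ⟨h, ?_⟩
        have : s * (x r - z r) = - (s * (z r - x r)) := by ring
        rw [this]
        linarith
  have hinter : volume (A ∩ A') = 0 := by
    apply measure_mono_null _ (volume_hyper r (x r))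
    rintro z ⟨⟨_, g1⟩, ⟨_, g2⟩⟩
    show z r = x r
    rcases hs with rfl | rfl <;> linarith
  have h := measure_union_add_inter (μ := volume) A mA'
  rw [hunion, hinter, add_zero, hvol, volume_KK hρ, ← two_mul] at h
  have h2 : ENNReal.ofReal (4 * ρ ^ 2) = 2 * ENNReal.ofReal (2 * ρ ^ 2) := by
    have : (4 : ℝ) * ρ ^ 2 = 2 * (2 * ρ ^ 2) := by ring
    rw [this, ENNReal.ofReal_mul (by norm_num)]
    norm_num
  rw [h2] at h
  exact ((ENNReal.mul_right_inj (by norm_num) (by norm_num)).1 h).symm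

end Pool.Agent.Lib.MP_1e8db4_co
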