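import Pool.Agent.Lib.MP_1e8db4_co.Defs
import Mathlib.Analysis.Normed.Affine.AddTorsor

/-!
The path metric on the surface of the cube, near interior points of faces and edges.
-/

set_option autoImplicit false

namespace Pool.Agent.Lib.MP_1e8db4_co

open Set Metric
open scoped ENNReal NNReal

theorem sum3 {i j k : Fin 3} (hij : i ≠ j) (hik : i ≠ k) (hjk : j ≠ k) (g : Fin 3 → ℝ) :
    g 0 + g 1 + g 2 = g i + g j + g k := by
  fin_cases i <;> fin_cases j <;> fin_cases k <;> simp at hij hik hjk ⊢ <;> ring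

theorem cases3 {i j k : Fin 3} (hij : i ≠ j) (hik : i ≠ k) (hjk : j ≠ k) (m : Fin 3) :
    m = i ∨ m = j ∨ m = k := by
  revert i j k m
  decide

theorem dist3 {i j k : Fin 3} (hij : i ≠ j) (hik : i ≠ k) (hjk : j ≠ k) (p q : E3) :
    dist p q ^ 2 = (p i - q i) ^ 2 + (p j - q j) ^ 2 + (p k - q k) ^ 2 := by
  rw [EuclideanSpace.dist_eq, Real.sq_sqrt (Finset.sum_nonneg fun _ _ => sq_nonneg _), Fin.sum_univ_three]
  have h := sum3 hij hik hjk (fun m => dist (p m) (q m) ^ 2)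
  simp only at h
  rw [h, Real.dist_eq, Real.dist_eq, Real.dist_eq, sq_abs, sq_abs, sq_abs]

theorem dist2 (p q : E2) : dist p q ^ 2 = (p 0 - q 0) ^ 2 + (p 1 - q 1) ^ 2 := by
  rw [EuclideanSpace.dist_eq, Real.sq_sqrt (Finset.sum_nonneg fun _ _ => sq_nonneg _), Fin.sum_univ_two, Real.dist_eq,
    Real.dist_eq, sq_abs, sq_abs]

theorem dist_le_of_sq {a b : ℝ} (hb : 0 ≤ b) (h : a ^ 2 ≤ b ^ 2) : a ≤ b :=
  abs_le_of_sq_le_sq' h hb |>.2

theorem edist_le_pathDist (X : Set E3) (p q : E3) : edist p q ≤ pathDist X p q := by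
  apply le_iInf₂
  rintro γ ⟨_, _, h0, h1⟩
  rw [← h0, ← h1]
  exact eVariationOn.edist_le γ (left_mem_Icc.2 zero_le_one) (right_mem_Icc.2 zero_le_one)

theorem pathDist_le {X : Set E3} {p q : E3} {γ : ℝ → E3} {D : ℝ≥0}
    (hγ : ∀ s ∈ Icc (0 : ℝ) 1, ∀ t ∈ Icc (0 : ℝ) 1, dist (γ s) (γ t) ≤ D * dist s t)
    (hX : ∀ t ∈ Icc (0 : ℝ) 1, γ t ∈ X) (h0 : γ 0 = p) (h1 : γ 1 = q) :
    pathDist X p q ≤ D := by
  have hL : LipschitzOnWith D γ (Icc (0 : ℝ) 1) := LipschitzOnWith.of_dist_le_mul hγ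
  have h2 : eVariationOn γ (Icc 0 1) ≤ D * eVariationOn (id : ℝ → ℝ) (Icc 0 1) := by
    have := hL.comp_eVariationOn_le (g := (id : ℝ → ℝ)) (s := Icc (0 : ℝ) 1) (mapsTo_id _)
    simpa using this
  have h3 : eVariationOn (id : ℝ → ℝ) (Icc 0 1) ≤ 1 := by
    have h := (monotoneOn_id (s := Icc (0 : ℝ) 1)).eVariationOn_le (a := 0) (b := 1)
      (left_mem_Icc.2 zero_le_one) (right_mem_Icc.2 zero_le_one)
    rw [inter_self] at h
    simpa using h
  refine (iInf₂_le γ ⟨hL.continuousOn, hX, h0, h1⟩).trans (h2.trans ?_)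
  calc (D : ℝ≥0∞) * eVariationOn (id : ℝ → ℝ) (Icc 0 1) ≤ D * 1 := by gcongr
    _ = D := mul_one _

theorem pathDist_segment {X : Set E3} {p q : E3}
    (hX : ∀ t ∈ Icc (0 : ℝ) 1, AffineMap.lineMap p q t ∈ X) : pathDist X p q = edist p q := by
  apply le_antisymm _ (edist_le_pathDist X p q)
  rw [edist_nndist]
  apply pathDist_le (γ := fun t => AffineMap.lineMap p q t) _ hX (by simp) (by simp)
  intro s _ t _
  rw [dist_lineMap_lineMap, coe_nndist, mul_comm]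

/-- the path metric through three points of a path -/
theorem three_points {γ : ℝ → E3} {t : ℝ} (ht : t ∈ Icc (0 : ℝ) 1) :
    edist (γ 0) (γ t) + edist (γ t) (γ 1) ≤ eVariationOn γ (Icc 0 1) := by
  have h := eVariationOn.Icc_add_Icc γ (s := Icc (0 : ℝ) 1) ht.1 ht.2 ht
  rw [inter_self] at h
  rw [← h]
  apply add_le_add
  · exact eVariationOn.edist_le γ ⟨left_mem_Icc.2 zero_le_one, left_mem_Icc.2 ht.1⟩
      ⟨ht, right_mem_Icc.2 ht.1⟩
  · exact eVariationOn.edist_le γ ⟨ht, left_mem_Icc.2 ht.2⟩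
      ⟨right_mem_Icc.2 zero_le_one, right_mem_Icc.2 ht.2⟩

end Pool.Agent.Lib.MP_1e8db4_co
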