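import Pool.Agent.Lib.MP_1e8db4_co.Area

/-!
The total area.
-/

set_option autoImplicit false

namespace Pool.Agent.Lib.MP_1e8db4_co

open Set Metric MeasureTheory
open scoped ENNReal NNReal Real

variable {ℓ : ℝ} {P : Set E2} {f : E2 → E3}

theorem T_mp (L : E2 ≃ₗᵢ[ℝ] E2) (c : E2) :
    MeasurePreserving (fun z : E2 => L z + c) volume volume :=
  (measurePreserving_add_right volume c).comp L.measurePreserving

/-- the multiples of `ℓ` -/
def mulSet (ℓ : ℝ) : Set ℝ := Set.range (fun n : ℤ => (n : ℝ) * ℓ)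

theorem mulSet_countable : (mulSet ℓ).Countable := countable_range _

theorem T_grid_null (L : E2 ≃ₗᵢ[ℝ] E2) (c : E2) :
    volume {z : E2 | L z + c ∈ grid (mulSet ℓ)} = 0 :=
  (T_mp L c).quasiMeasurePreserving.preimage_null (volume_grid mulSet_countable)

theorem cs_one (hℓ : ℓ ≠ 0) {t : ℝ} (h : cs ℓ t = 1) : t ∈ mulSet ℓ := by
  rw [← cs_zero (ℓ := ℓ)] at h
  obtain ⟨n, hn | hn⟩ := cs_eq hℓ h.symm
  · exact ⟨n, by rw [hn]; ring⟩
  · exact ⟨n, by rw [hn]; ring⟩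

/-- points mapped to an edge -/
theorem edge_grid (hℓ : ℓ ≠ 0) {q : E3} {p : E2} (h : GG ℓ q = HH ℓ p) {j m : Fin 3}
    (hjm : j ≠ m) (hj : q j = 0 ∨ q j = ℓ) (hm : q m = 0 ∨ q m = ℓ) : p ∈ grid (mulSet ℓ) := by
  obtain ⟨k, hkj, hkm⟩ : ∃ k : Fin 3, k ≠ j ∧ k ≠ m := by
    have : ∀ j k : Fin 3, ∃ i : Fin 3, i ≠ j ∧ i ≠ k := by decide
    exact this j m
  rw [GG_perm hjm hkj.symm hkm.symm] at h
  have c1 : cs ℓ (q j) = 1 := cs_side hℓ hj
  have c2 : cs ℓ (q m) = 1 := cs_side hℓ hm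
  rw [c1, c2] at h
  have h1 := congrArg Prod.fst h
  have h2 := congrArg Prod.snd h
  simp only [HH] at h1 h2
  have h3 : cs ℓ (p 0) + cs ℓ (p 1) = 1 + cs ℓ (q k) := by linarith
  have h4 : cs ℓ (p 0) * cs ℓ (p 1) = 1 * cs ℓ (q k) := by linarith
  rcases pair_eq h3 h4 with ⟨h5, _⟩ | ⟨_, h5⟩
  · exact Or.inl (cs_one hℓ h5)
  · exact Or.inr (cs_one hℓ h5)

/-- the sides -/
noncomputable def sd (ℓ : ℝ) (s : Bool) : ℝ := if s then ℓ else 0

theorem sd_side (s : Bool) : sd ℓ s = 0 ∨ sd ℓ s = ℓ := by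
  cases s
  · left; rfl
  · right; rfl

/-- the first of the other indices -/
def o1 (j : Fin 3) : Fin 3 := if j = 0 then 1 else 0
/-- the second of the other indices -/
def o2 (j : Fin 3) : Fin 3 := if j = 2 then 1 else 2

theorem o1_ne (j : Fin 3) : o1 j ≠ j := by revert j; decide
theorem o2_ne (j : Fin 3) : o2 j ≠ j := by revert j; decide
theorem o12_ne (j : Fin 3) : o1 j ≠ o2 j := by revert j; decide
theorem o_cases {j m : Fin 3} (h : m ≠ j) : m = o1 j ∨ m = o2 j := by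
  revert j m; decide

/-- the parts of the interior -/
def VV (P : Set E2) (ℓ : ℝ) (f : E2 → E3) (w : Fin 3 × Bool) : Set E2 :=
  UU P ℓ f (o1 w.1) w.1 (o2 w.1) (sd ℓ w.2)

theorem VV_disjoint (hℓ : 0 < ℓ) {w w' : Fin 3 × Bool} (h : w ≠ w') :
    Disjoint (VV P ℓ f w) (VV P ℓ f w') := by
  obtain ⟨j, s⟩ := w
  obtain ⟨j', s'⟩ := w'
  rw [Set.disjoint_left]
  rintro z ⟨_, h1, h2, h3, h4, h5⟩ ⟨_, g1, g2, g3, g4, g5⟩
  simp only at h1 h2 h3 h4 h5 g1 g2 g3 g4 g5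
  by_cases hj : j = j'
  · subst hj
    have hs : s ≠ s' := fun e => h (by rw [e])
    rw [h1] at g1
    cases s <;> cases s'
    · exact hs rfl
    · simp [sd] at g1; linarith
    · simp [sd] at g1; linarith
    · exact hs rfl
  · have hjj : 0 < f z j' ∧ f z j' < ℓ := by
      rcases o_cases (Ne.symm hj) with e | e
      · rw [e]; exact ⟨h2, h3⟩
      · rw [e]; exact ⟨h4, h5⟩
    rw [g1] at hjj
    rcases sd_side (ℓ := ℓ) s' with e | e
    · rw [e] at hjj; exact lt_irrefl _ hjj.1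
    · rw [e] at hjj; exact lt_irrefl _ hjj.2

theorem Fold.cover (hF : Fold P ℓ f) (hℓ : 0 < ℓ) {L : E2 ≃ₗᵢ[ℝ] E2} {c : E2}
    (hT : ∀ y ∈ P, GG ℓ (f y) = HH ℓ (L y + c)) {z : E2} (hz : z ∈ interior P)
    (hg : L z + c ∉ grid (mulSet ℓ)) : ∃ w, z ∈ VV P ℓ f w := by
  have hq := hF.mem (interior_subset hz)
  obtain ⟨j, hj⟩ := hq.2
  have hother : ∀ m, m ≠ j → 0 < f z m ∧ f z m < ℓ := by
    intro m hm
    have : ¬ (f z m = 0 ∨ f z m = ℓ) := fun h =>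
      hg (edge_grid hℓ.ne' (hT z (interior_subset hz)) hm.symm hj h)
    push Not at this
    exact ⟨lt_of_le_of_ne (hq.1 m).1 (Ne.symm this.1), lt_of_le_of_ne (hq.1 m).2 this.2⟩
  have h1 := hother _ (o1_ne j)
  have h2 := hother _ (o2_ne j)
  rcases hj with hj | hj
  · exact ⟨(j, false), hz, by simpa [sd] using hj, h1.1, h1.2, h2.1, h2.2⟩
  · exact ⟨(j, true), hz, by simpa [sd] using hj, h1.1, h1.2, h2.1, h2.2⟩

theorem Fold.volume_VV (hF : Fold P ℓ f) (hℓ : 0 < ℓ) {L : E2 ≃ₗᵢ[ℝ] E2} {c : E2}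
    (hT : ∀ y ∈ P, GG ℓ (f y) = HH ℓ (L y + c)) (hnull : volume (P \ interior P) = 0)
    (w : Fin 3 × Bool) {B : Set E2} (hB : IsOpen B) (hBsub : B ⊆ rect 0 ℓ 0 ℓ) :
    volume {z | z ∈ VV P ℓ f w ∧ pr (o1 w.1) (o2 w.1) (f z) ∈ B} = volume B :=
  hF.area_face hℓ hT hnull (o1_ne w.1) (o12_ne w.1) (o2_ne w.1).symm (sd_side w.2) hB hBsub

/-- **Total area.** -/
theorem Fold.total_area (hF : Fold P ℓ f) (hℓ : 0 < ℓ) {L : E2 ≃ₗᵢ[ℝ] E2} {c : E2}
    (hT : ∀ y ∈ P, GG ℓ (f y) = HH ℓ (L y + c)) (hnull : volume (P \ interior P) = 0) :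
    volume P = ENNReal.ofReal (6 * ℓ ^ 2) := by
  have hVol : ∀ w, volume (VV P ℓ f w) = ENNReal.ofReal (ℓ ^ 2) := by
    intro w
    have h := hF.volume_VV hℓ hT hnull w (isOpen_rect 0 ℓ 0 ℓ) Subset.rfl
    have e : {z | z ∈ VV P ℓ f w ∧ pr (o1 w.1) (o2 w.1) (f z) ∈ rect 0 ℓ 0 ℓ} = VV P ℓ f w := by
      ext z
      constructor
      · exact fun h => h.1
      · intro h
        exact ⟨h, h.2.2.1, h.2.2.2.1, h.2.2.2.2.1, h.2.2.2.2.2⟩
    rw [e] at h
    rw [h, volume_rect, ← ENNReal.ofReal_mul (by linarith)]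
    congr 1
    ring
  have hU : volume (⋃ w ∈ (Finset.univ : Finset (Fin 3 × Bool)), VV P ℓ f w) =
      ENNReal.ofReal (6 * ℓ ^ 2) := by
    rw [measure_biUnion_finset (fun w _ w' _ h => VV_disjoint hℓ h)
      (fun w _ => (hF.isOpen_UU (o1_ne w.1) (o12_ne w.1) (o2_ne w.1).symm
        (sd_side w.2)).measurableSet), Finset.sum_congr rfl (fun w _ => hVol w)]
    rw [Finset.sum_const, Finset.card_univ, Fintype.card_prod, Fintype.card_fin,
      Fintype.card_bool, nsmul_eq_mul, ENNReal.ofReal_mul (by norm_num)]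
    norm_num
  rw [← hU]
  apply le_antisymm
  · have hsub : P ⊆ (⋃ w ∈ (Finset.univ : Finset (Fin 3 × Bool)), VV P ℓ f w) ∪
        ((P \ interior P) ∪ {z : E2 | L z + c ∈ grid (mulSet ℓ)}) := by
      intro z hz
      by_cases hzi : z ∈ interior P
      · by_cases hg : L z + c ∈ grid (mulSet ℓ)
        · exact Or.inr (Or.inr hg)
        · obtain ⟨w, hw⟩ := hF.cover hℓ hT hzi hg
          exact Or.inl (mem_biUnion (Finset.mem_coe.2 (Finset.mem_univ w)) hw)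
      · exact Or.inr (Or.inl ⟨hz, hzi⟩)
    have hz : volume ((P \ interior P) ∪ {z : E2 | L z + c ∈ grid (mulSet ℓ)}) = 0 :=
      measure_union_null hnull (T_grid_null L c)
    calc volume P ≤ _ := measure_mono hsub
      _ ≤ volume (⋃ w ∈ (Finset.univ : Finset (Fin 3 × Bool)), VV P ℓ f w) +
          volume ((P \ interior P) ∪ {z : E2 | L z + c ∈ grid (mulSet ℓ)}) :=
        measure_union_le _ _
      _ = volume (⋃ w ∈ (Finset.univ : Finset (Fin 3 × Bool)), VV P ℓ f w) := by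
        rw [hz, add_zero]
  · apply measure_mono
    apply iUnion₂_subset
    intro w _ z hz
    exact interior_subset hz.1

end Pool.Agent.Lib.MP_1e8db4_co
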