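import Pool.Agent.Lib.MP_1e8db4_co.LocalRegion

/-!
Every vertex of the cube is the image of a lattice point.
-/

set_option autoImplicit false

namespace Pool.Agent.Lib.MP_1e8db4_co

open Set Metric MeasureTheory Filter Topology
open scoped ENNReal NNReal Real

variable {ℓ : ℝ} {P : Set E2} {f : E2 → E3} {L : E2 ≃ₗᵢ[ℝ] E2} {c : E2} {V : E3}

theorem cs_inj (hℓ : 0 < ℓ) {s t : ℝ} (hs0 : 0 ≤ s) (hs1 : s ≤ ℓ / 2) (ht0 : 0 ≤ t)
    (ht1 : t ≤ ℓ / 2) (h : cs ℓ s = cs ℓ t) : s = t := by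
  have hπ := Real.pi_pos
  have key : ∀ u : ℝ, 0 ≤ u → u ≤ ℓ / 2 → 2 * π * u / ℓ ∈ Icc 0 π := by
    intro u h0 h1
    constructor
    · positivity
    · rw [div_le_iff₀ hℓ]
      nlinarith
  have := Real.injOn_cos (key s hs0 hs1) (key t ht0 ht1) h
  field_simp at this
  exact this

theorem cs_abs (t : ℝ) : cs ℓ |t| = cs ℓ t := by
  rcases abs_choice t with h | h
  · rw [h]
  · rw [h, cs_neg]

theorem cs_sub_side (hℓ : ℓ ≠ 0) {a : ℝ} (ha : a = 0 ∨ a = ℓ) (t : ℝ) :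
    cs ℓ (t - a) = cs ℓ t := by
  rw [← cs_abs, cs_abs_sub hℓ ha]

theorem GH_perm (hℓ : ℓ ≠ 0) {q : E3} (hq : q ∈ cubeSurface ℓ) {p : E2} (h : GG ℓ q = HH ℓ p) :
    ∃ i j k : Fin 3, i ≠ j ∧ i ≠ k ∧ j ≠ k ∧ (q j = 0 ∨ q j = ℓ) ∧ cs ℓ (p 0) = cs ℓ (q i) ∧
      cs ℓ (p 1) = cs ℓ (q k) := by
  obtain ⟨j, hj⟩ := hq.2
  have h1 := h
  rw [GG_perm (o1_ne j) (o12_ne j) (o2_ne j).symm, cs_side hℓ hj] at h1
  have h2 := congrArg Prod.fst h1
  have h3 := congrArg Prod.snd h1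
  simp only [HH] at h2 h3
  rcases pair_eq (a := cs ℓ (p 0)) (b := cs ℓ (p 1)) (a' := cs ℓ (q (o1 j)))
    (b' := cs ℓ (q (o2 j))) (by linarith) (by linarith) with h4 | h4
  · exact ⟨o1 j, j, o2 j, o1_ne j, o12_ne j, (o2_ne j).symm, hj, h4.1, h4.2⟩
  · exact ⟨o2 j, j, o1 j, o2_ne j, (o12_ne j).symm, (o1_ne j).symm, hj, h4.1, h4.2⟩

/-- points of the polygon mapped near the vertex `V` -/
def WW (P : Set E2) (f : E2 → E3) (V : E3) (ρ : ℝ) : Set E2 :=
  {z | z ∈ P ∧ ∀ i, |f z i - V i| < ρ}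

theorem WW_measurable (hF : Fold P ℓ f) (hP : IsClosed P) (ρ : ℝ) :
    MeasurableSet (WW P f V ρ) := by
  have hO : IsOpen {q : E3 | ∀ i, |q i - V i| < ρ} := by
    rw [ofPred_forall]
    apply isOpen_iInter_of_finite
    intro i
    have h1 : Continuous (fun q : E3 => q i) := (EuclideanSpace.proj (𝕜 := ℝ) i).continuous
    exact isOpen_lt ((h1.sub continuous_const).abs) continuous_const
  obtain ⟨u, hu, h⟩ := continuousOn_iff'.1 hF.cont _ hO
  have e : WW P f V ρ = u ∩ P := by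
    rw [← h]
    ext z
    simp only [WW, mem_setOf_eq, mem_inter_iff, mem_preimage]
    tauto
  rw [e]
  exact hu.measurableSet.inter hP.measurableSet

/-- lower end of the part of a side near a vertex -/
noncomputable def lo (ℓ ρ a : ℝ) : ℝ := if a = 0 then 0 else ℓ - ρ
/-- upper end of the part of a side near a vertex -/
noncomputable def hi (ℓ ρ a : ℝ) : ℝ := if a = 0 then ρ else ℓ

theorem lo_hi_iff {ρ a t : ℝ} (ha : a = 0 ∨ a = ℓ) (hℓ : 0 < ℓ) (hρ : ρ ≤ ℓ / 2) :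
    (lo ℓ ρ a < t ∧ t < hi ℓ ρ a) ↔ (0 < t ∧ t < ℓ ∧ |t - a| < ρ) := by
  rcases ha with rfl | rfl
  · simp only [lo, hi, if_true, sub_zero]
    constructor
    · rintro ⟨h1, h2⟩
      refine ⟨h1, by linarith, ?_⟩
      rw [abs_of_pos h1]; exact h2
    · rintro ⟨h1, _, h3⟩
      rw [abs_of_pos h1] at h3
      exact ⟨h1, h3⟩
  · simp only [lo, hi, hℓ.ne', if_false]
    constructor
    · rintro ⟨h1, h2⟩
      refine ⟨by linarith, h2, ?_⟩
      rw [abs_of_neg (by linarith)]; linarith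
    · rintro ⟨_, h2, h3⟩
      rw [abs_of_neg (by linarith)] at h3
      exact ⟨by linarith, h2⟩

theorem hi_sub_lo {ρ a : ℝ} (ha : a = 0 ∨ a = ℓ) (hℓ : 0 < ℓ) : hi ℓ ρ a - lo ℓ ρ a = ρ := by
  rcases ha with rfl | rfl
  · simp [lo, hi]
  · simp [lo, hi, hℓ.ne']

/-- the side of the coordinate `j` of a vertex -/
noncomputable def vs (V : E3) (j : Fin 3) : Bool := if V j = 0 then false else true

theorem sd_vs (hV : IsVertex ℓ V) (j : Fin 3) : sd ℓ (vs V j) = V j := by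
  unfold vs sd
  rcases hV j with h | h
  · simp [h]
  · by_cases h0 : V j = 0
    · simp [h0]
    · rw [if_neg h0, if_pos rfl]
      exact h.symm

/-- **Area near a vertex.** -/
theorem Fold.area_vertex (hF : Fold P ℓ f) (hℓ : 0 < ℓ)
    (hT : ∀ y ∈ P, GG ℓ (f y) = HH ℓ (L y + c)) (hnull : volume (P \ interior P) = 0)
    (hV : IsVertex ℓ V) {ρ : ℝ} (hρ0 : 0 < ρ) (hρ : ρ ≤ ℓ / 2) :
    volume (WW P f V ρ) = ENNReal.ofReal (3 * ρ ^ 2) := by
  set B : Fin 3 → Set E2 := fun j => rect (lo ℓ ρ (V (o1 j))) (hi ℓ ρ (V (o1 j)))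
    (lo ℓ ρ (V (o2 j))) (hi ℓ ρ (V (o2 j))) with hB
  set X : Fin 3 → Set E2 := fun j =>
    {z | z ∈ VV P ℓ f (j, vs V j) ∧ pr (o1 j) (o2 j) (f z) ∈ B j} with hX
  have hBsub : ∀ j, B j ⊆ rect 0 ℓ 0 ℓ := by
    rintro j p ⟨h1, h2, h3, h4⟩
    have g1 := (lo_hi_iff (hV (o1 j)) hℓ hρ).1 ⟨h1, h2⟩
    have g2 := (lo_hi_iff (hV (o2 j)) hℓ hρ).1 ⟨h3, h4⟩
    exact ⟨g1.1, g1.2.1, g2.1, g2.2.1⟩
  have hXvol : ∀ j, volume (X j) = ENNReal.ofReal (ρ ^ 2) := by
    intro j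
    have h := hF.volume_VV hℓ hT hnull (j, vs V j) (isOpen_rect _ _ _ _) (hBsub j)
    have h' : volume (X j) = volume (B j) := h
    rw [h', hB]
    simp only
    rw [volume_rect, hi_sub_lo (hV _) hℓ, hi_sub_lo (hV _) hℓ, ← ENNReal.ofReal_mul hρ0.le]
    congr 1
    ring
  have hXsub : ∀ j, X j ⊆ VV P ℓ f (j, vs V j) := fun j z hz => hz.1
  have hXmeas : ∀ j, MeasurableSet (X j) := by
    intro j
    have hUopen := hF.isOpen_UU (o1_ne j) (o12_ne j) (o2_ne j).symm (sd_side (ℓ := ℓ) (vs V j))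
    have hUP : UU P ℓ f (o1 j) j (o2 j) (sd ℓ (vs V j)) ⊆ interior P := fun z hz => hz.1
    have hc : ContinuousOn (fun z => pr (o1 j) (o2 j) (f z))
        (UU P ℓ f (o1 j) j (o2 j) (sd ℓ (vs V j))) :=
      (pr_continuous _ _).comp_continuousOn (hF.cont.mono (hUP.trans interior_subset))
    exact (hc.isOpen_inter_preimage hUopen (isOpen_rect _ _ _ _)).measurableSet
  have hXW : ∀ j, X j ⊆ WW P f V ρ := by
    rintro j z ⟨⟨hz, hzj, hi0, hi1, hk0, hk1⟩, h1, h2, h3, h4⟩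
    have g1 := (lo_hi_iff (hV (o1 j)) hℓ hρ).1 ⟨h1, h2⟩
    have g2 := (lo_hi_iff (hV (o2 j)) hℓ hρ).1 ⟨h3, h4⟩
    refine ⟨interior_subset hz, fun i => ?_⟩
    by_cases hij : i = j
    · subst hij
      have e : f z i = V i := by
        have := sd_vs hV i
        simp only at hzj
        rw [hzj, this]
      rw [e, sub_self, abs_zero]
      exact hρ0
    · rcases o_cases hij with e | e
      · rw [e]; exact g1.2.2
      · rw [e]; exact g2.2.2
  have hU : volume (⋃ j ∈ (Finset.univ : Finset (Fin 3)), X j) = ENNReal.ofReal (3 * ρ ^ 2) := by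
    rw [measure_biUnion_finset (fun j _ j' _ h => (VV_disjoint hℓ
        (fun e => h (congrArg Prod.fst e))).mono (hXsub j) (hXsub j')) (fun j _ => hXmeas j),
      Finset.sum_congr rfl (fun j _ => hXvol j)]
    rw [Finset.sum_const, Finset.card_univ, Fintype.card_fin, nsmul_eq_mul,
      ENNReal.ofReal_mul (by norm_num)]
    norm_num
  rw [← hU]
  apply le_antisymm
  · have hsub : WW P f V ρ ⊆ (⋃ j ∈ (Finset.univ : Finset (Fin 3)), X j) ∪
        ((P \ interior P) ∪ {z : E2 | L z + c ∈ grid (mulSet ℓ)}) := by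
      rintro z ⟨hz, hzV⟩
      by_cases hzi : z ∈ interior P
      · by_cases hg : L z + c ∈ grid (mulSet ℓ)
        · exact Or.inr (Or.inr hg)
        · obtain ⟨⟨j, s⟩, hw⟩ := hF.cover hℓ hT hzi hg
          left
          have hsv : s = vs V j := by
            have h1 := hzV j
            have h2 : f z j = sd ℓ s := hw.2.1
            have h3 := sd_vs hV j
            rw [h2, ← h3] at h1
            cases hs : s <;> cases hs' : vs V j
            · rfl
            · rw [hs, hs'] at h1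
              simp only [sd, if_true, zero_sub, abs_neg, abs_of_pos hℓ, Bool.false_eq_true,
                if_false] at h1
              linarith
            · rw [hs, hs'] at h1
              simp only [sd, if_true, sub_zero, abs_of_pos hℓ, Bool.false_eq_true,
                if_false] at h1
              linarith
            · rfl
          subst hsv
          obtain ⟨_, _, hi0, hi1, hk0, hk1⟩ := id hw
          refine mem_biUnion (Finset.mem_coe.2 (Finset.mem_univ j)) ⟨hw, ?_⟩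
          have g1 := (lo_hi_iff (hV (o1 j)) hℓ hρ).2 ⟨hi0, hi1, hzV _⟩
          have g2 := (lo_hi_iff (hV (o2 j)) hℓ hρ).2 ⟨hk0, hk1, hzV _⟩
          exact ⟨g1.1, g1.2, g2.1, g2.2⟩
      · exact Or.inr (Or.inl ⟨hz, hzi⟩)
    have hz : volume ((P \ interior P) ∪ {z : E2 | L z + c ∈ grid (mulSet ℓ)}) = 0 :=
      measure_union_null hnull (T_grid_null L c)
    calc volume (WW P f V ρ) ≤ _ := measure_mono hsub
      _ ≤ volume (⋃ j ∈ (Finset.univ : Finset (Fin 3)), X j) +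
          volume ((P \ interior P) ∪ {z : E2 | L z + c ∈ grid (mulSet ℓ)}) :=
        measure_union_le _ _
      _ = volume (⋃ j ∈ (Finset.univ : Finset (Fin 3)), X j) := by
        rw [hz, add_zero]
  · apply measure_mono
    apply iUnion₂_subset
    intro j _
    exact hXW j

/-- the developed position of a point mapped near a vertex -/
theorem Fold.near_lattice (hF : Fold P ℓ f) (hℓ : 0 < ℓ)
    (hT : ∀ y ∈ P, GG ℓ (f y) = HH ℓ (L y + c)) (hV : IsVertex ℓ V) {ρ : ℝ} {z : E2}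
    (hz : z ∈ WW P f V ρ) : ∃ n0 n1 : ℤ, z ∈ KK L c (n0 * ℓ) (n1 * ℓ) ρ := by
  obtain ⟨hzP, hzV⟩ := hz
  obtain ⟨i, j, k, -, -, -, -, h0, h1⟩ := GH_perm hℓ.ne' (hF.mem hzP) (hT z hzP)
  have key : ∀ (i : Fin 3) (t : ℝ), cs ℓ t = cs ℓ (f z i) → ∃ n : ℤ, |t - n * ℓ| < ρ := by
    intro i t h
    rw [← cs_sub_side hℓ.ne' (hV i) (f z i)] at h
    obtain ⟨n, hn | hn⟩ := cs_eq hℓ.ne' h.symm
    · refine ⟨n, ?_⟩
      have e : t - n * ℓ = f z i - V i := by linarith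
      rw [e]; exact hzV i
    · refine ⟨n, ?_⟩
      have e : t - n * ℓ = -(f z i - V i) := by linarith
      rw [e, abs_neg]; exact hzV i
  obtain ⟨n0, hn0⟩ := key i _ h0
  obtain ⟨n1, hn1⟩ := key k _ h1
  exact ⟨n0, n1, hn0, hn1⟩

/-- converse near a point mapped to the vertex -/
theorem Fold.near_vertex (hF : Fold P ℓ f) (hℓ : 0 < ℓ)
    (hT : ∀ y ∈ P, GG ℓ (f y) = HH ℓ (L y + c)) (hV : IsVertex ℓ V) {ρ : ℝ}
    (hρ : ρ ≤ ℓ / 2) {z : E2} (hzP : z ∈ P) {n0 n1 : ℤ}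
    (hz : z ∈ KK L c (n0 * ℓ) (n1 * ℓ) ρ) (hd : dist (f z) V < ℓ / 2) : z ∈ WW P f V ρ := by
  refine ⟨hzP, ?_⟩
  have hρ0 : 0 < ρ := (abs_nonneg _).trans_lt hz.1
  have hco : ∀ m, |f z m - V m| < ℓ / 2 := fun m => (coord_le (f z) V m).trans_lt hd
  obtain ⟨i, j, k, hij, hik, hjk, hj, h0, h1⟩ := GH_perm hℓ.ne' (hF.mem hzP) (hT z hzP)
  have key : ∀ (m : Fin 3) (n : ℤ) (t : ℝ), |t - n * ℓ| < ρ → cs ℓ t = cs ℓ (f z m) →
      |f z m - V m| < ρ := by
    intro m n t h1 h2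
    have e1 : cs ℓ |t - n * ℓ| = cs ℓ t := by
      rw [cs_abs]
      have := cs_add_int hℓ.ne' t (-n)
      rw [← this]
      congr 1
      push_cast
      ring
    have e2 : cs ℓ |f z m - V m| = cs ℓ (f z m) := by
      rw [cs_abs, cs_sub_side hℓ.ne' (hV m)]
    have e3 : |f z m - V m| = |t - n * ℓ| :=
      cs_inj hℓ (abs_nonneg _) (hco m).le (abs_nonneg _) (by linarith) (by rw [e1, e2, h2])
    rw [e3]; exact h1
  intro m
  rcases cases3 hij hik hjk m with rfl | rfl | rfl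
  · exact key m n0 _ hz.1 h0
  · have e : f z m = V m := by
      have h2 := hco m
      rcases hj with hj | hj <;> rcases hV m with hv | hv
      · rw [hj, hv]
      · rw [hj, hv, zero_sub, abs_neg, abs_of_pos hℓ] at h2; linarith
      · rw [hj, hv, sub_zero, abs_of_pos hℓ] at h2; linarith
      · rw [hj, hv]
    rw [e, sub_self, abs_zero]
    exact hρ0
  · exact key m n1 _ hz.2 h1

end Pool.Agent.Lib.MP_1e8db4_co
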